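import Pool.Agent.T6.H19.GR.Defs
import Pool.Agent.T6.H19.MK.Net

/-!
# Sequences of local operators map tensor networks to tensor networks (module SEQ)
-/

set_option autoImplicit false
set_option linter.unusedSectionVars false

open scoped BigOperators Matrix
open Finset Pool.Agent.TH235.PP Pool.Agent.T6.H19.PQ

namespace Pool.Agent.T6.H19.GR

namespace SEQ

theorem op_ite {R : Type*} [Ring R] (X : R) : ∀ {n : ℕ} (b0 : Fin n),
    op (fun b : Fin n => if b = b0 then X else 1) = X := by
  intro n
  induction n with
  | zero => intro b0; exact b0.elim0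
  | succ n ih =>
    intro b0
    rw [op_succ]
    refine Fin.cases ?_ (fun b1 => ?_) b0
    · rw [if_pos rfl]
      have : (fun i : Fin n => if i.succ = 0 then X else 1) = fun _ => (1 : R) := by
        funext i
        rw [if_neg (Fin.succ_ne_zero i)]
      rw [this, op_const, one_pow, mul_one]
    · rw [if_neg (Fin.succ_ne_zero b1).symm, one_mul]
      have : (fun i : Fin n => if i.succ = b1.succ then X else 1) =
          fun i => if i = b1 then X else (1 : R) := by
        funext i
        simp only [Fin.succ_inj]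
      rw [this, ih b1]

theorem term_zero' {d L R : ℕ} (u : Site L) : (term (0 : BoxOp d R) u : TorOp d L) = 0 := by
  classical
  ext s t
  unfold term
  split_ifs <;> rfl

theorem KTt_seq {R : Type*} [Ring R] {M N r : ℕ} (T : Fin M → R) (p : Fin M → Fin N)
    (hr : ∀ b, (univ.filter fun t => p t = b).card ≤ r) :
    KTt (fun t b => if b = p t then T t - 1 else 0) r = op T := by
  classical
  unfold KTt
  have h1 : ∀ F : Fin M → Fin N → Bool, ¬ (∀ b, cnt F b ≤ r) →
      pr (fun t b => if F t b = true then (if b = p t then T t - 1 else 0) else 1) = 0 := by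
    intro F hF
    push Not at hF
    obtain ⟨b, hb⟩ := hF
    have : ∃ t, F t b = true ∧ p t ≠ b := by
      by_contra hcon
      push Not at hcon
      have : (univ.filter fun t => F t b = true) ⊆ (univ.filter fun t => p t = b) := by
        intro t ht
        rw [mem_filter] at ht ⊢
        exact ⟨mem_univ _, hcon t ht.2⟩
      have h2 := Finset.card_le_card this
      have h3 := hr b
      unfold cnt at hb
      omega
    obtain ⟨t, ht, hpt⟩ := this
    apply pr_eq_zero _ t b
    rw [if_pos ht, if_neg (fun h => hpt h.symm)]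
  have h2 : (∑ F : Fin M → Fin N → Bool, if (∀ b, cnt F b ≤ r) then
      pr (fun t b => if F t b = true then (if b = p t then T t - 1 else 0) else 1) else 0) =
      ∑ F : Fin M → Fin N → Bool,
        pr (fun t b => if F t b = true then (if b = p t then T t - 1 else 0) else 1) := by
    refine Finset.sum_congr rfl fun F _ => ?_
    split_ifs with hF
    · rfl
    · exact (h1 F hF).symm
  rw [h2, ← pr_sum (fun (t : Fin M) (b : Fin N) (x : Bool) =>
    if x = true then (if b = p t then T t - 1 else 0) else 1)]
  unfold pr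
  congr 1
  funext t
  rw [← op_ite (T t) (p t)]
  congr 1
  funext b
  by_cases hb : b = p t
  · simp [hb]
  · simp [hb]

end SEQ

/-- module SEQ: a sequence of local operators, with every corner `u` occurring at most `r` times,
maps tensor networks to tensor networks -/
theorem seq_peps {d L M R' r D0 : ℕ} [NeZero L] (hs : R' + 1 ≤ L) (c : Fin M → Site L)
    (T : Fin M → TorOp d L) (hT : ∀ i, Sup (box (R' + 1) (c i)) (T i))
    (hr : ∀ u, (univ.filter fun i => c i = u).card ≤ r) {φ : (Site L → Fin d) → ℂ}
    (hφ : IsPEPS D0 φ) :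
    ∃ D : ℕ, D ≤ D0 * (M * d ^ (2 * (R' + 1) ^ 2) + 1) ^ (r * (R' + 1) ^ 2) ∧
      IsPEPS D (op T *ᵥ φ) := by
  classical
  obtain ⟨A0, rfl⟩ := hφ
  have hk : ∀ i, ∃ k : BoxOp d (R' + 1), T i = term k (c i) := fun i => term_of_sup hs (c i) (hT i)
  choose k hk using hk
  obtain ⟨e⟩ : Nonempty (Fin (L ^ 2) ≃ Site L) := by
    refine ⟨(Fintype.equivFinOfCardEq ?_).symm⟩
    rw [Fintype.card_prod, ZMod.card]
    ring
  obtain ⟨A, hA⟩ := peps_apply_t A0 (fun (t : Fin M) u => if u = c t then k t - 1 else 0) e r
  have h1 : (fun (t : Fin M) b =>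
      (term (if e b = c t then k t - 1 else 0) (e b) : TorOp d L)) =
      fun (t : Fin M) b => if b = e.symm (c t) then T t - 1 else 0 := by
    funext t b
    by_cases hb : b = e.symm (c t)
    · subst hb
      rw [if_pos (Equiv.apply_symm_apply _ _), if_pos rfl, Equiv.apply_symm_apply, term_sub,
        MK.term_one, ← hk]
    · have hb' : e b ≠ c t := fun h => hb (by rw [← h, Equiv.symm_apply_apply])
      rw [if_neg hb', if_neg hb, SEQ.term_zero']
  have h2 : ∀ b, (univ.filter fun t => e.symm (c t) = b).card ≤ r := by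
    intro b
    have : (univ.filter fun t => e.symm (c t) = b) = univ.filter fun t => c t = e b := by
      ext t
      rw [mem_filter, mem_filter, Equiv.symm_apply_eq]
    rw [this]
    exact hr (e b)
  rw [h1, SEQ.KTt_seq T (fun t => e.symm (c t)) h2] at hA
  rw [hA]
  refine ⟨_, ?_, isPEPS_contract A⟩
  have hcL : Fintype.card (Lm d (R' + 1)) = d ^ (2 * (R' + 1) ^ 2) := by
    rw [Fintype.card_prod, Fintype.card_fun, Fintype.card_fin, Fintype.card_prod, Fintype.card_fin,
      ← pow_add]
    congr 1
    ring
  have hlab := card_lab (d := d) (R' + 1) M r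
  rw [hcL] at hlab
  rw [Fintype.card_prod, Fintype.card_fun, Fintype.card_fin, Fintype.card_prod, Fintype.card_fin]
  refine Nat.mul_le_mul_left _ ?_
  calc Fintype.card (Lab d (R' + 1) M r) ^ ((R' + 1) * (R' + 1))
      ≤ ((M * d ^ (2 * (R' + 1) ^ 2) + 1) ^ r) ^ ((R' + 1) * (R' + 1)) :=
        Nat.pow_le_pow_left hlab _
    _ = (M * d ^ (2 * (R' + 1) ^ 2) + 1) ^ (r * (R' + 1) ^ 2) := by
        rw [← pow_mul]
        congr 1
        ring

end Pool.Agent.T6.H19.GR
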