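import Mathlib
import Pool.Agent.T6.H19.PQ.Geo

/-!
# Growth of ground vectors by local changes: definitions

Interface of the modules of the project MP_953b23_mp, slot 4.
-/

set_option autoImplicit false
set_option linter.unusedSectionVars false

open scoped BigOperators Matrix
open Finset Pool.Agent.TH235.PP Pool.Agent.T6.H19.PQ

namespace Pool.Agent.T6.H19.GR

/-- `Φ` and `Φ'` are eigenvectors of `H` and `H'`, with the eigenvalues `E` and `E'`, and `O` links
them: `O Φ - z Φ'` has no component of `H'`-energy at distance less than `Δ` from `E'`, and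
`O* Φ' - conj z Φ` has no component of `H`-energy at distance less than `Δ` from `E`. If `Φ` and `Φ'`
span the ground spaces and the gaps are at least `Δ`, this holds for all `O` with `z = ⟨Φ', O Φ⟩`. -/
def Link {n : Type*} [Fintype n] (H H' O : Matrix n n ℂ) (Δ E E' : ℝ) (Φ Φ' : n → ℂ) (z : ℂ) :
    Prop :=
  H *ᵥ Φ = (E : ℂ) • Φ ∧ H' *ᵥ Φ' = (E' : ℂ) • Φ' ∧
  (∀ (e : ℝ) (χ : n → ℂ), |e - E'| < Δ → H' *ᵥ χ = (e : ℂ) • χ →
    ip χ (O *ᵥ Φ) = z * ip χ Φ') ∧
  ∀ (e : ℝ) (χ : n → ℂ), |e - E| < Δ → H *ᵥ χ = (e : ℂ) • χ →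
    ip χ (Oᴴ *ᵥ Φ') = (starRingEnd ℂ) z * ip χ Φ

end Pool.Agent.T6.H19.GR
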