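import Mathlib
import Pool.Agent.T6.H19.GR.Defs
import Pool.Agent.T6.H19.MK.B
import Pool.Agent.T6.H19.MK.C

/-!
Module UHL (helper8): the Powers–Størmer inequality and Uhlmann's theorem for matrices, and two
vectors of the torus which look the same outside of a set of sites.
-/

set_option autoImplicit false
set_option linter.unusedSectionVars false

open scoped BigOperators Matrix ComplexOrder
open Finset Pool.Agent.TH235.PP Pool.Agent.T6.H19.PQ

namespace Pool.Agent.T6.H19.GR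

namespace ModU

open Pool.Agent.T6.H19.MK Pool.Agent.T6.H19.MK.B

section mat

variable {n : Type*} [Fintype n] [DecidableEq n]

lemma trace_ud {ρ : Matrix n n ℂ} (hρ : ρ.IsHermitian) (a : n → ℂ) (T : Matrix n n ℂ) :
    Matrix.trace (ud hρ a * T) = ∑ j, a j *
      ((hρ.eigenvectorUnitary : Matrix n n ℂ)ᴴ * T * (hρ.eigenvectorUnitary : Matrix n n ℂ)) j j := by
  unfold ud
  rw [mul_assoc, mul_assoc, Matrix.trace_mul_comm, mul_assoc]
  rw [Matrix.trace]
  refine sum_congr rfl fun j _ => ?_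
  rw [Matrix.diag_apply, Matrix.diagonal_mul]

open scoped Matrix.Norms.L2Operator in
/-- the Powers–Størmer inequality -/
lemma ps (S S' : Matrix n n ℂ) (hS : S.PosSemidef) (hS' : S'.PosSemidef) :
    ∃ A : Matrix n n ℂ, ‖A‖ ≤ 1 ∧
      (Matrix.trace ((S' - S) * (S' - S))).re ≤ (Matrix.trace (A * (S' * S' - S * S))).re := by
  set D := S' - S with hDdef
  have hD : D.IsHermitian := hS'.1.sub hS.1
  set U : Matrix n n ℂ := (hD.eigenvectorUnitary : Matrix n n ℂ) with hU
  have hUU : Uᴴ * U = 1 := UsU hD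
  set l := hD.eigenvalues with hl
  set sg : n → ℂ := fun j => if 0 ≤ l j then 1 else -1 with hsg
  have hDud : ud hD (fun j => ((l j : ℝ) : ℂ)) = D := spec hD
  have habs : ∀ j, sg j * ((l j : ℝ) : ℂ) = ((|l j| : ℝ) : ℂ) := by
    intro j
    simp only [hsg]
    split_ifs with h
    · rw [one_mul, abs_of_nonneg h]
    · rw [abs_of_neg (not_le.1 h)]; push_cast; ring
  set A := ud hD sg with hA
  have hAD : A * D = ud hD (fun j => ((|l j| : ℝ) : ℂ)) := by
    conv_lhs => rw [← hDud]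
    rw [hA, ud_mul]
    congr 1
    funext j
    exact habs j
  have hDA : D * A = ud hD (fun j => ((|l j| : ℝ) : ℂ)) := by
    conv_lhs => rw [← hDud]
    rw [hA, ud_mul]
    congr 1
    funext j
    rw [mul_comm]
    exact habs j
  refine ⟨A, ?_, ?_⟩
  · rw [hA, norm_ud, pi_norm_le_iff_of_nonneg zero_le_one]
    intro j
    simp only [hsg]
    split_ifs <;> simp
  -- the two sides
  set T := S' + S with hT
  have e1 : (2 : ℂ) * Matrix.trace (A * (S' * S' - S * S)) =
      2 * Matrix.trace (ud hD (fun j => ((|l j| : ℝ) : ℂ)) * T) := by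
    have h1 : D * T + T * D = (2 : ℂ) • (S' * S' - S * S) := by
      rw [hDdef, hT, two_smul]
      noncomm_ring
    have h2 : (2 : ℂ) * Matrix.trace (A * (S' * S' - S * S)) =
        Matrix.trace (A * (D * T + T * D)) := by
      rw [h1, Matrix.mul_smul, Matrix.trace_smul, smul_eq_mul]
    rw [h2, mul_add, Matrix.trace_add, ← mul_assoc, hAD, ← mul_assoc A T D,
      Matrix.trace_mul_comm (A * T) D, ← mul_assoc, hDA]
    ring
  have e2 : Matrix.trace (A * (S' * S' - S * S)) =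
      ∑ j, ((|l j| : ℝ) : ℂ) * (Uᴴ * T * U) j j := by
    rw [← trace_ud hD]
    have h2 : (2 : ℂ) ≠ 0 := two_ne_zero
    exact mul_left_cancel₀ h2 e1
  have e3 : Matrix.trace (D * D) = ∑ j, ((l j ^ 2 : ℝ) : ℂ) := by
    have h1 : D * D = ud hD (fun j => ((l j ^ 2 : ℝ) : ℂ)) := by
      conv_lhs => rw [← hDud]
      rw [ud_mul]
      congr 1
      funext j
      push_cast
      ring
    have h2 := trace_ud hD (fun j => ((l j ^ 2 : ℝ) : ℂ)) 1
    rw [mul_one] at h2
    rw [h1, h2]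
    refine sum_congr rfl fun j _ => ?_
    rw [mul_one]
    have h3 := congrFun (congrFun hUU j) j
    rw [h3, Matrix.one_apply_eq, mul_one]
  rw [e2, e3, ← Complex.ofReal_sum, Complex.ofReal_re, Complex.re_sum]
  refine sum_le_sum fun j _ => ?_
  rw [Complex.re_ofReal_mul]
  have hG : (Uᴴ * S * U).PosSemidef := hS.conjTranspose_mul_mul_same U
  have hG' : (Uᴴ * S' * U).PosSemidef := hS'.conjTranspose_mul_mul_same U
  have g1 : 0 ≤ ((Uᴴ * S * U) j j).re := (Complex.le_def.1 (hG.diag_nonneg (i := j))).1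
  have g2 : 0 ≤ ((Uᴴ * S' * U) j j).re := (Complex.le_def.1 (hG'.diag_nonneg (i := j))).1
  have g3 : ((Uᴴ * T * U) j j).re = ((Uᴴ * S' * U) j j).re + ((Uᴴ * S * U) j j).re := by
    rw [hT, mul_add, add_mul, Matrix.add_apply, Complex.add_re]
  have g4 : l j = ((Uᴴ * S' * U) j j).re - ((Uᴴ * S * U) j j).re := by
    have h1 : Uᴴ * D * U = Matrix.diagonal (fun j => ((l j : ℝ) : ℂ)) := by
      conv_lhs => rw [← hDud]
      unfold ud
      calc Uᴴ * (U * Matrix.diagonal (fun j => ((l j : ℝ) : ℂ)) * Uᴴ) * U =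
          (Uᴴ * U) * Matrix.diagonal (fun j => ((l j : ℝ) : ℂ)) * (Uᴴ * U) := by
            simp only [mul_assoc]
        _ = _ := by rw [hUU, one_mul, mul_one]
    have h2 : (Uᴴ * D * U) j j = ((l j : ℝ) : ℂ) := by
      rw [h1, Matrix.diagonal_apply_eq]
    have h3 : (Uᴴ * D * U) j j = (Uᴴ * S' * U) j j - (Uᴴ * S * U) j j := by
      rw [hDdef, mul_sub, sub_mul, Matrix.sub_apply]
    rw [h3] at h2
    have h4 := congrArg Complex.re h2
    rw [Complex.sub_re, Complex.ofReal_re] at h4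
    exact h4.symm
  have g5 : |l j| ≤ ((Uᴴ * T * U) j j).re := by
    rw [g3, g4, abs_le]
    constructor <;> linarith
  calc l j ^ 2 = |l j| * |l j| := by rw [← sq, sq_abs]
    _ ≤ _ := mul_le_mul_of_nonneg_left g5 (abs_nonneg _)

lemma pw_psd {ρ : Matrix n n ℂ} (hρ : ρ.IsHermitian) : (pw hρ (1 / 2)).PosSemidef := by
  have h1 : pw hρ (1 / 2) = (pw hρ (1 / 4))ᴴ * pw hρ (1 / 4) := by
    rw [pw_star, pw_mul]
    congr 1
    simp only [map_div₀, map_one, map_ofNat]
    norm_num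
  rw [h1]
  exact Matrix.posSemidef_conjTranspose_mul_self _

end mat

section pol

variable {a b : Type*} [Fintype a] [DecidableEq a] [Fintype b] [DecidableEq b]

open scoped Matrix.Norms.L2Operator in
/-- the polar decomposition -/
lemma polar (M : Matrix a b ℂ) : ∃ (V : Matrix a b ℂ) (S : Matrix b b ℂ), ‖V‖ ≤ 1 ∧
    S.PosSemidef ∧ Vᴴ * M = S ∧ S * S = Mᴴ * M := by
  have hP : (Mᴴ * M).PosSemidef := Matrix.posSemidef_conjTranspose_mul_self M
  set hR := hP.1 with hRdef
  have hc : (starRingEnd ℂ) (-(1 / 2)) = -(1 / 2) := by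
    simp only [map_neg, map_div₀, map_one, map_ofNat]
  have hV : (M * pw hR (-(1 / 2)))ᴴ = pw hR (-(1 / 2)) * Mᴴ := by
    rw [Matrix.conjTranspose_mul, pw_star, hc]
  have h1 : pw hR 1 = Mᴴ * M := pw_one hR hP
  refine ⟨M * pw hR (-(1 / 2)), pw hR (1 / 2), ?_, pw_psd hR, ?_, ?_⟩
  · have h2 : (M * pw hR (-(1 / 2)))ᴴ * (M * pw hR (-(1 / 2))) = pw hR 0 := by
      rw [hV]
      calc pw hR (-(1 / 2)) * Mᴴ * (M * pw hR (-(1 / 2))) =
          pw hR (-(1 / 2)) * (Mᴴ * M) * pw hR (-(1 / 2)) := by simp only [Matrix.mul_assoc]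
        _ = pw hR (-(1 / 2)) * pw hR 1 * pw hR (-(1 / 2)) :=
          congrArg (fun Z => pw hR (-(1 / 2)) * Z * pw hR (-(1 / 2))) h1.symm
        _ = pw hR 0 := by
          rw [pw_mul, pw_mul]
          congr 1
          norm_num
    have h3 := Matrix.l2_opNorm_conjTranspose_mul_self (M * pw hR (-(1 / 2)))
    rw [h2] at h3
    have h4 := norm_pw hR 0 rfl
    nlinarith [norm_nonneg (M * pw hR (-(1 / 2)))]
  · rw [hV, Matrix.mul_assoc]
    refine (congrArg (fun Z => pw hR (-(1 / 2)) * Z) h1.symm).trans ?_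
    rw [pw_mul]
    congr 1
    norm_num
  · rw [pw_mul]
    refine Eq.trans ?_ h1
    congr 1
    norm_num

end pol

end ModU

open ModU

open scoped Matrix.Norms.L2Operator in
/-- module UHL (a): Powers–Størmer and Uhlmann for matrices -/
theorem uhl_mat {a b : Type*} [Fintype a] [DecidableEq a] [Fintype b] [DecidableEq b]
    (M M' : Matrix a b ℂ) (hM : Matrix.trace (Mᴴ * M) = 1) (hM' : Matrix.trace (M'ᴴ * M') = 1)
    (ε : ℝ) (h : ∀ A : Matrix b b ℂ, ‖Matrix.trace (A * (M'ᴴ * M' - Mᴴ * M))‖ ≤ ε * ‖A‖) :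
    ∃ W : Matrix a a ℂ, ‖W‖ ≤ 1 ∧ 1 - ε / 2 ≤ (Matrix.trace (M'ᴴ * (W * M))).re := by
  obtain ⟨V, S, hV, hS, hVS, hSS⟩ := polar M
  obtain ⟨V', S', hV', hS', hVS', hSS'⟩ := polar M'
  obtain ⟨A, hA, hAS⟩ := ps S S' hS hS'
  have hε : 0 ≤ ε := by
    by_contra hneg
    have h1 := (norm_nonneg _).trans (h 1)
    have h2 : 0 ≤ ‖(1 : Matrix b b ℂ)‖ := norm_nonneg _
    have h3 : ‖(1 : Matrix b b ℂ)‖ = 0 := by nlinarith
    rw [norm_eq_zero] at h3
    have h4 : Mᴴ * M = 0 := by rw [← one_mul (Mᴴ * M), h3, zero_mul]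
    rw [h4, Matrix.trace_zero] at hM
    exact zero_ne_one hM
  refine ⟨V' * Vᴴ, ?_, ?_⟩
  · refine (Matrix.l2_opNorm_mul _ _).trans ?_
    rw [Matrix.l2_opNorm_conjTranspose]
    calc ‖V'‖ * ‖V‖ ≤ 1 * 1 := by gcongr
      _ = 1 := one_mul 1
  · have e1 : M'ᴴ * (V' * Vᴴ * M) = S' * S := by
      rw [← hVS]
      have h1 : M'ᴴ * V' = S' := by
        rw [← Matrix.conjTranspose_conjTranspose (M'ᴴ * V'), Matrix.conjTranspose_mul,
          Matrix.conjTranspose_conjTranspose, hVS']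
        exact hS'.1
      rw [← h1]
      simp only [Matrix.mul_assoc]
    rw [e1]
    have e2 : Matrix.trace ((S' - S) * (S' - S)) = 2 - 2 * Matrix.trace (S' * S) := by
      have h1 : (S' - S) * (S' - S) = S' * S' - S' * S - S * S' + S * S := by noncomm_ring
      rw [h1, Matrix.trace_add, Matrix.trace_sub, Matrix.trace_sub, hSS, hSS', hM, hM',
        Matrix.trace_mul_comm S S']
      ring
    have e3 := h A
    have e4 : (Matrix.trace (A * (S' * S' - S * S))).re ≤ ε := by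
      rw [hSS, hSS']
      refine (Complex.re_le_norm _).trans (e3.trans ?_)
      calc ε * ‖A‖ ≤ ε * 1 := by gcongr
        _ = ε := mul_one ε
    rw [e2, Complex.sub_re] at hAS
    have e5 : (2 * Matrix.trace (S' * S)).re = 2 * (Matrix.trace (S' * S)).re := by
      rw [Complex.mul_re]; simp
    rw [e5] at hAS
    have e6 : (2 : ℂ).re = 2 := rfl
    rw [e6] at hAS
    linarith

namespace ModU

open Pool.Agent.T6.H19.MK Pool.Agent.T6.H19.MK.ModC

section conj

variable {n : Type*} [Fintype n] [DecidableEq n]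

open scoped Matrix.Norms.L2Operator in
lemma norm_conj_le (A : Matrix n n ℂ) : ‖A.map (starRingEnd ℂ)‖ ≤ ‖A‖ := by
  rw [Matrix.l2_opNorm_def (A.map (starRingEnd ℂ))]
  refine ContinuousLinearMap.opNorm_le_bound _ (norm_nonneg _) fun x => ?_
  have h1 : ‖((Matrix.toEuclideanLin.trans LinearMap.toContinuousLinearMap)
      (A.map (starRingEnd ℂ))) x‖ = nr ((A.map (starRingEnd ℂ)) *ᵥ x.ofLp) := rfl
  have hc : ∀ y : n → ℂ, nr (fun i => (starRingEnd ℂ) (y i)) = nr y := by
    intro y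
    have h2 : nr (fun i => (starRingEnd ℂ) (y i)) ^ 2 = nr y ^ 2 := by
      rw [nr_sq, nr_sq]
      unfold normSq
      simp
    exact (pow_left_inj₀ (nr_nonneg _) (nr_nonneg _) two_ne_zero).1 h2
  have h3 : (A.map (starRingEnd ℂ)) *ᵥ x.ofLp =
      fun i => (starRingEnd ℂ) ((A *ᵥ fun i => (starRingEnd ℂ) (x.ofLp i)) i) := by
    funext i
    simp only [Matrix.mulVec, dotProduct, Matrix.map_apply, map_sum, map_mul, Complex.conj_conj]
  rw [h1, h3, hc]
  refine (nr_mulVec A _).trans ?_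
  rw [hc]
  exact le_rfl

end conj

section torus

variable {d L : ℕ} [NeZero L]

open Classical in
/-- the operator `A` on the sites outside of `X`, tensored with the identity -/
noncomputable def ext (X : Finset (Site L))
    (A : Matrix ({v // v ∉ X} → Fin d) ({v // v ∉ X} → Fin d) ℂ) : TorOp d L := fun s t =>
  if rs X s = rs X t then A (ro X s) (ro X t) else 0

lemma ext_mul (X : Finset (Site L))
    (A B : Matrix ({v // v ∉ X} → Fin d) ({v // v ∉ X} → Fin d) ℂ) :
    ext X (A * B) = ext X A * ext X B := by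
  classical
  ext s t
  rw [ModU.ext, Matrix.mul_apply, Matrix.mul_apply, sum_split X]
  simp only [ModU.ext, rs_merge, ro_merge]
  by_cases h : rs X s = rs X t
  · rw [if_pos h, sum_eq_single (rs X s)]
    · refine sum_congr rfl fun w _ => ?_
      rw [if_pos rfl, if_pos h]
    · intro a _ ha
      refine sum_eq_zero fun w _ => ?_
      rw [if_neg (Ne.symm ha), zero_mul]
    · intro h'; exact absurd (mem_univ _) h'
  · rw [if_neg h]
    symm
    refine sum_eq_zero fun a _ => sum_eq_zero fun w _ => ?_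
    by_cases h1 : rs X s = a
    · rw [← h1, if_neg h, mul_zero]
    · rw [if_neg h1, zero_mul]

lemma ext_one (X : Finset (Site L)) :
    ext X (1 : Matrix ({v // v ∉ X} → Fin d) ({v // v ∉ X} → Fin d) ℂ) = 1 := by
  classical
  ext s t
  rw [ModU.ext]
  by_cases h : s = t
  · subst h
    rw [if_pos rfl, Matrix.one_apply_eq, Matrix.one_apply_eq]
  · rw [Matrix.one_apply_ne h]
    by_cases h1 : rs X s = rs X t
    · rw [if_pos h1, Matrix.one_apply_ne]
      intro h2
      apply h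
      rw [← merge_rs_ro X s, ← merge_rs_ro X t, h1, h2]
    · rw [if_neg h1]

lemma ext_add (X : Finset (Site L))
    (A B : Matrix ({v // v ∉ X} → Fin d) ({v // v ∉ X} → Fin d) ℂ) :
    ext X (A + B) = ext X A + ext X B := by
  classical
  ext s t
  rw [Matrix.add_apply, ModU.ext, ModU.ext, ModU.ext, Matrix.add_apply]
  split_ifs <;> simp

lemma ext_smul (X : Finset (Site L)) (c : ℂ)
    (A : Matrix ({v // v ∉ X} → Fin d) ({v // v ∉ X} → Fin d) ℂ) :
    ext X (c • A) = c • ext X A := by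
  classical
  ext s t
  rw [Matrix.smul_apply, ModU.ext, ModU.ext, Matrix.smul_apply]
  split_ifs <;> simp

lemma ext_star (X : Finset (Site L))
    (A : Matrix ({v // v ∉ X} → Fin d) ({v // v ∉ X} → Fin d) ℂ) :
    ext X (star A) = star (ext X A) := by
  classical
  ext s t
  rw [Matrix.star_apply, ModU.ext, ModU.ext, Matrix.star_apply]
  by_cases h : rs X s = rs X t
  · rw [if_pos h, if_pos h.symm]
  · rw [if_neg h, if_neg (Ne.symm h), star_zero]

/-- `ext` as a homomorphism -/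
noncomputable def extH (X : Finset (Site L)) :
    Matrix ({v // v ∉ X} → Fin d) ({v // v ∉ X} → Fin d) ℂ →⋆ₐ[ℂ] TorOp d L where
  toFun := ext X
  map_one' := ext_one X
  map_mul' := ext_mul X
  map_zero' := by
    have := ext_smul X 0 (0 : Matrix ({v // v ∉ X} → Fin d) ({v // v ∉ X} → Fin d) ℂ)
    simpa using this
  map_add' := ext_add X
  commutes' := fun c => by
    rw [Algebra.algebraMap_eq_smul_one, ext_smul, ext_one, ← Algebra.algebraMap_eq_smul_one]
  map_star' := ext_star X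

open scoped Matrix.Norms.L2Operator in
lemma norm_ext (X : Finset (Site L))
    (A : Matrix ({v // v ∉ X} → Fin d) ({v // v ∉ X} → Fin d) ℂ) : ‖ext X A‖ ≤ ‖A‖ :=
  NonUnitalStarAlgHom.norm_apply_le (extH X) A

lemma sup_ext (X : Finset (Site L))
    (A : Matrix ({v // v ∉ X} → Fin d) ({v // v ∉ X} → Fin d) ℂ) :
    Sup {v | v ∉ X} (ext X A) := by
  classical
  refine ⟨?_, ?_⟩
  · rintro s t ⟨v, hv, hne⟩
    unfold ModU.ext
    rw [if_neg]
    intro h
    have hv' : v ∈ X := by simpa using hv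
    exact hne (congrFun h ⟨v, hv'⟩)
  · intro s t s' t' h1 h2 h3
    have e1 : rs X s = rs X t := by
      funext ⟨v, hv⟩
      exact h1 v (by simpa using hv)
    have e2 : rs X s' = rs X t' := by
      funext ⟨v, hv⟩
      exact h2 v (by simpa using hv)
    unfold ModU.ext
    rw [if_pos e1, if_pos e2]
    congr 1
    · funext ⟨v, hv⟩
      exact (h3 v hv).1
    · funext ⟨v, hv⟩
      exact (h3 v hv).2

/-- the vector as a matrix -/
noncomputable def vm (X : Finset (Site L)) (Φ : (Site L → Fin d) → ℂ) :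
    Matrix (X → Fin d) ({v // v ∉ X} → Fin d) ℂ :=
  fun s w => (starRingEnd ℂ) (Φ (merge X s w))

lemma ip_ext (X : Finset (Site L)) (Φ : (Site L → Fin d) → ℂ)
    (A : Matrix ({v // v ∉ X} → Fin d) ({v // v ∉ X} → Fin d) ℂ) :
    ip Φ (ext X A *ᵥ Φ) = Matrix.trace (A * ((vm X Φ)ᴴ * vm X Φ)) := by
  classical
  unfold ip
  rw [sum_split X, sum_comm]
  rw [Matrix.trace]
  refine sum_congr rfl fun w _ => ?_
  rw [Matrix.diag_apply, Matrix.mul_apply]
  have e1 : ∀ s : X → Fin d, (ext X A *ᵥ Φ) (merge X s w) =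
      ∑ w' : {v // v ∉ X} → Fin d, A w w' * Φ (merge X s w') := by
    intro s
    rw [Matrix.mulVec, dotProduct, sum_split X, sum_eq_single s]
    · refine sum_congr rfl fun w' _ => ?_
      simp only [ModU.ext, rs_merge, ro_merge, if_true]
    · intro s' _ hs
      refine sum_eq_zero fun w' _ => ?_
      simp only [ModU.ext, rs_merge, ro_merge]
      rw [if_neg (Ne.symm hs), zero_mul]
    · intro h'; exact absurd (mem_univ _) h'
  simp only [e1, mul_sum]
  rw [sum_comm]
  refine sum_congr rfl fun w' _ => ?_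
  rw [Matrix.mul_apply, mul_sum]
  refine sum_congr rfl fun s _ => ?_
  simp only [Matrix.conjTranspose_apply, vm, RCLike.star_def, Complex.conj_conj]
  ring

lemma trace_vm (X : Finset (Site L)) (Φ : (Site L → Fin d) → ℂ) (h : normSq Φ = 1) :
    Matrix.trace ((vm X Φ)ᴴ * vm X Φ) = 1 := by
  classical
  have h1 : Matrix.trace ((vm X Φ)ᴴ * vm X Φ) = ((normSq Φ : ℝ) : ℂ) := by
    unfold normSq
    rw [Complex.ofReal_sum, sum_split X, sum_comm, Matrix.trace]
    refine sum_congr rfl fun w _ => ?_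
    rw [Matrix.diag_apply, Matrix.mul_apply]
    refine sum_congr rfl fun s _ => ?_
    simp only [Matrix.conjTranspose_apply, vm, RCLike.star_def, Complex.conj_conj]
    rw [Complex.mul_conj, Complex.normSq_eq_norm_sq]
  rw [h1, h, Complex.ofReal_one]

lemma ip_emb' (X : Finset (Site L)) (Φ Φ' : (Site L → Fin d) → ℂ)
    (B : Matrix (X → Fin d) (X → Fin d) ℂ) :
    ip Φ' (emb X (B.map (starRingEnd ℂ)) *ᵥ Φ) =
      (starRingEnd ℂ) (Matrix.trace ((vm X Φ')ᴴ * (B * vm X Φ))) := by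
  classical
  unfold ip
  rw [sum_split X, sum_comm, Matrix.trace, map_sum]
  refine sum_congr rfl fun w _ => ?_
  rw [Matrix.diag_apply, Matrix.mul_apply, map_sum]
  refine sum_congr rfl fun s _ => ?_
  have e1 : (emb X (B.map (starRingEnd ℂ)) *ᵥ Φ) (merge X s w) =
      ∑ s' : X → Fin d, (starRingEnd ℂ) (B s s') * Φ (merge X s' w) := by
    rw [Matrix.mulVec, dotProduct, sum_split X]
    refine sum_congr rfl fun s' _ => ?_
    simp only [emb_apply, rs_merge, ro_merge]
    rw [sum_eq_single w]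
    · rw [if_pos rfl, Matrix.map_apply]
    · intro w' _ hw
      rw [if_neg (Ne.symm hw), zero_mul]
    · intro h'; exact absurd (mem_univ _) h'
  rw [e1, map_mul, Matrix.mul_apply, map_sum]
  simp only [Matrix.conjTranspose_apply, vm, RCLike.star_def, Complex.conj_conj, map_mul]

end torus

end ModU

open scoped Matrix.Norms.L2Operator in
/-- module UHL (b): two vectors of the torus which look the same outside of `X` are joined by an
operator acting on `X` -/
theorem uhl {d L : ℕ} [NeZero L] (X : Finset (Site L)) (Φ Φ' : (Site L → Fin d) → ℂ)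
    (hΦ : normSq Φ = 1) (hΦ' : normSq Φ' = 1) (ε : ℝ)
    (h : ∀ A : TorOp d L, Sup {v | v ∉ X} A →
      ‖ip Φ' (A *ᵥ Φ') - ip Φ (A *ᵥ Φ)‖ ≤ ε * ‖A‖) :
    ∃ W : TorOp d L, Sup {v | v ∈ X} W ∧ ‖W‖ ≤ 1 ∧ normSq (Wᴴ *ᵥ Φ' - Φ) ≤ ε := by
  classical
  have hε : 0 ≤ ε := by
    by_contra hneg
    have h1 := (norm_nonneg _).trans (h (ModU.ext X 1) (ModU.sup_ext X 1))
    rw [ModU.ext_one] at h1
    have h2 : 0 ≤ ‖(1 : TorOp d L)‖ := norm_nonneg _
    have h3 : ‖(1 : TorOp d L)‖ = 0 := by nlinarith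
    rw [norm_eq_zero] at h3
    have h4 : Φ = 0 := by
      rw [← Matrix.one_mulVec Φ, h3, Matrix.zero_mulVec]
    rw [h4] at hΦ
    unfold normSq at hΦ
    simp at hΦ
  obtain ⟨W0, hW0, hW1⟩ := uhl_mat (ModU.vm X Φ) (ModU.vm X Φ') (ModU.trace_vm X Φ hΦ)
    (ModU.trace_vm X Φ' hΦ') ε (fun A => by
      have h1 := h (ModU.ext X A) (ModU.sup_ext X A)
      rw [ModU.ip_ext, ModU.ip_ext, ← Matrix.trace_sub, ← mul_sub] at h1
      exact h1.trans (mul_le_mul_of_nonneg_left (ModU.norm_ext X A) hε))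
  refine ⟨Pool.Agent.T6.H19.MK.emb X (W0.map (starRingEnd ℂ)), ?_, ?_, ?_⟩
  · exact Pool.Agent.T6.H19.MK.sup_emb X _
  · exact (Pool.Agent.T6.H19.MK.norm_emb X _).trans ((ModU.norm_conj_le W0).trans hW0)
  set W := Pool.Agent.T6.H19.MK.emb X (W0.map (starRingEnd ℂ)) with hW
  have hWn : ‖W‖ ≤ 1 :=
    (Pool.Agent.T6.H19.MK.norm_emb X _).trans ((ModU.norm_conj_le W0).trans hW0)
  have h1 : 1 - ε / 2 ≤ (ip Φ' (W *ᵥ Φ)).re := by
    rw [hW, ModU.ip_emb', Complex.conj_re]
    exact hW1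
  have h2 : nr (Wᴴ *ᵥ Φ') ≤ 1 := by
    refine (nr_mulVec Wᴴ Φ').trans ?_
    rw [Matrix.l2_opNorm_conjTranspose]
    have h3 : nr Φ' = 1 := by
      have h4 := nr_sq Φ'
      rw [hΦ'] at h4
      have h5 := nr_nonneg Φ'
      nlinarith
    rw [h3, mul_one]
    exact hWn
  have h3 : normSq (Wᴴ *ᵥ Φ' - Φ) = nr (Wᴴ *ᵥ Φ') ^ 2 + normSq Φ -
      2 * (ip (Wᴴ *ᵥ Φ') Φ).re := by
    rw [← nr_sq, ← nr_sq, ip_eq]
    unfold nr
    rw [WithLp.toLp_sub, @norm_sub_sq ℂ]
    simp only [RCLike.re_to_complex]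
    ring
  have h4 : ip (Wᴴ *ᵥ Φ') Φ = ip Φ' (W *ᵥ Φ) := by
    unfold ip
    have e1 : ∀ (u v : (Site L → Fin d) → ℂ), ∑ s, (starRingEnd ℂ) (u s) * v s = star u ⬝ᵥ v :=
      fun u v => rfl
    rw [e1, e1, Matrix.star_mulVec, Matrix.conjTranspose_conjTranspose, Matrix.dotProduct_mulVec]
  rw [h3, h4, hΦ]
  have h5 : nr (Wᴴ *ᵥ Φ') ^ 2 ≤ 1 := pow_le_one₀ (nr_nonneg _) h2
  linarith

end Pool.Agent.T6.H19.GR
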