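import Pool.Agent.T6.H19.GR.Mix
import Pool.Agent.T6.H19.GR.UHL
import Pool.Agent.T6.H19.GR.SEQ
import Pool.Agent.T6.H19.PQ.Param

/-!
# Growth by local changes: assembly
-/

set_option autoImplicit false
set_option linter.unusedSectionVars false

open scoped BigOperators Matrix InnerProductSpace
open Finset Pool.Agent.TH235.PP Pool.Agent.T6.H19.PQ
  Pool.Agent.Results.MP_953b23_mp.OverlapBoosting

namespace Pool.Agent.T6.H19.GR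

section general

variable {n : Type*} [Fintype n] [DecidableEq n]

theorem ip_adj (A : Matrix n n ℂ) (x y : n → ℂ) : ip x (A *ᵥ y) = ip (Aᴴ *ᵥ x) y := by
  have e3 : ∀ u v : n → ℂ, ip u v = star u ⬝ᵥ v := fun u v => rfl
  rw [e3, e3, Matrix.star_mulVec, Matrix.dotProduct_mulVec, Matrix.conjTranspose_conjTranspose]

theorem ip_smul_left' (c : ℂ) (x y : n → ℂ) : ip (c • x) y = (starRingEnd ℂ) c * ip x y := by
  unfold ip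
  rw [Finset.mul_sum]
  exact Finset.sum_congr rfl fun s _ => by rw [Pi.smul_apply, smul_eq_mul, map_mul]; ring

open scoped Matrix.Norms.L2Operator in
/-- the operators exchange the two vectors, so the expectations of the operators which commute with
them are close -/
theorem near_of_link (T A : Matrix n n ℂ) (hTA : A * T = T * A) (Φ Φ' : n → ℂ)
    (hΦ : normSq Φ = 1) (hΦ' : normSq Φ' = 1) (z : ℂ) (δ η : ℝ) (hη : 0 < η) (hz : η ≤ ‖z‖)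
    (h1 : nr (T *ᵥ Φ - z • Φ') ≤ δ) (h2 : nr (Tᴴ *ᵥ Φ' - (starRingEnd ℂ) z • Φ) ≤ δ) :
    ‖ip Φ' (A *ᵥ Φ') - ip Φ (A *ᵥ Φ)‖ ≤ 2 * δ / η * ‖A‖ := by
  have hn : nr Φ = 1 := nr_one Φ hΦ
  have hn' : nr Φ' = 1 := nr_one Φ' hΦ'
  have hδ : 0 ≤ δ := (nr_nonneg _).trans h1
  have e1 : z * (ip Φ' (A *ᵥ Φ') - ip Φ (A *ᵥ Φ)) =
      ip (Tᴴ *ᵥ Φ' - (starRingEnd ℂ) z • Φ) (A *ᵥ Φ) - ip Φ' (A *ᵥ (T *ᵥ Φ - z • Φ')) := by
    rw [Matrix.mulVec_sub, Matrix.mulVec_smul, ip_sub_right, ip_smul_right', ip_sub_left,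
      ip_smul_left', Complex.conj_conj, ← ip_adj, Matrix.mulVec_mulVec, Matrix.mulVec_mulVec, hTA]
    ring
  have e2 : ‖ip (Tᴴ *ᵥ Φ' - (starRingEnd ℂ) z • Φ) (A *ᵥ Φ)‖ ≤ δ * ‖A‖ := by
    refine (ip_le _ _).trans (mul_le_mul h2 ?_ (nr_nonneg _) hδ)
    have := nr_mulVec A Φ
    rwa [hn, mul_one] at this
  have e3 : ‖ip Φ' (A *ᵥ (T *ᵥ Φ - z • Φ'))‖ ≤ δ * ‖A‖ := by
    refine (ip_le _ _).trans ?_
    rw [hn', one_mul]
    refine (nr_mulVec _ _).trans ?_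
    rw [mul_comm]
    exact mul_le_mul_of_nonneg_right h1 (norm_nonneg _)
  have e4 : ‖z‖ * ‖ip Φ' (A *ᵥ Φ') - ip Φ (A *ᵥ Φ)‖ ≤ 2 * δ * ‖A‖ := by
    rw [← norm_mul, e1]
    refine (norm_sub_le _ _).trans ?_
    linarith
  have e5 : η * ‖ip Φ' (A *ᵥ Φ') - ip Φ (A *ᵥ Φ)‖ ≤ 2 * δ * ‖A‖ :=
    (mul_le_mul_of_nonneg_right hz (norm_nonneg _)).trans e4
  rw [div_mul_eq_mul_div, le_div_iff₀ hη, mul_comm]
  exact e5

open scoped Matrix.Norms.L2Operator in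
/-- the product of the operators -/
theorem seq_ip [Nonempty n] (e : ℝ) : ∀ (N : ℕ) (Φ : ℕ → n → ℂ) (W : Fin N → Matrix n n ℂ),
    (∀ i, ‖W i‖ ≤ 1) → (∀ i : Fin N, nr ((W i)ᴴ *ᵥ Φ i - Φ (i + 1)) ≤ e) →
    nr ((op W)ᴴ *ᵥ Φ 0 - Φ N) ≤ N * e := by
  intro N
  induction N with
  | zero =>
    intro Φ W _ _
    rw [op_zero, Matrix.conjTranspose_one, Matrix.one_mulVec, sub_self, nr_zero']
    simp
  | succ N ih =>
    intro Φ W hW hΦ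
    have h1 := ih (fun k => Φ (k + 1)) (fun i => W i.succ) (fun i => hW _) (fun i => by
      have := hΦ i.succ
      simpa using this)
    have h0 := hΦ 0
    simp only [Fin.val_zero, zero_add] at h0 h1
    obtain ⟨V, hV⟩ : ∃ V, V = op fun i : Fin N => W i.succ := ⟨_, rfl⟩
    have hVn : ‖V‖ ≤ 1 := by
      have hnt : Nontrivial (Matrix n n ℂ) := inferInstance
      rw [hV]
      refine (norm_op_le (R := Matrix n n ℂ) (fun i : Fin N => W i.succ) (fun _ => 1)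
        (fun i => hW _)).trans ?_
      simp
    rw [op_succ, Matrix.conjTranspose_mul, ← hV, ← Matrix.mulVec_mulVec]
    rw [← hV] at h1
    have h3 : Vᴴ *ᵥ ((W 0)ᴴ *ᵥ Φ 0) - Φ (N + 1) =
        Vᴴ *ᵥ ((W 0)ᴴ *ᵥ Φ 0 - Φ 1) + (Vᴴ *ᵥ Φ 1 - Φ (N + 1)) := by
      rw [Matrix.mulVec_sub]
      abel
    rw [h3]
    refine (nr_add _ _).trans ?_
    have h4 : nr (Vᴴ *ᵥ ((W 0)ᴴ *ᵥ Φ 0 - Φ 1)) ≤ e := by
      refine (nr_mulVec _ _).trans ?_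
      rw [Matrix.l2_opNorm_conjTranspose]
      have := mul_le_mul hVn h0 (nr_nonneg _) zero_le_one
      rwa [one_mul] at this
    push_cast
    linarith

end general

section torus

variable {d R L : ℕ} [NeZero L]

open scoped Matrix.Norms.L2Operator in
/-- one step: a local contraction which maps back -/
theorem hop (hR : 0 < R) (hh hh' : Site L → BoxOp d R)
    (hherm : ∀ u, (hh u).IsHermitian) (hherm' : ∀ u, (hh' u).IsHermitian) (J : ℝ)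
    (hJ : ∀ u, ‖term (hh u) u‖ ≤ J) (hJ' : ∀ u, ‖term (hh' u) u‖ ≤ J) (c : Site L) (ℓ : ℕ)
    (hfar : ∀ u, ℓ < cd u c → hh' u = hh u) (O : TorOp d L) (hO : Sup {v | cd v c ≤ ℓ} O)
    (hO1 : ‖O‖ ≤ 1) (Δ : ℝ) (hΔ : 0 < Δ) (E E' : ℝ) (Φ Φ' : (Site L → Fin d) → ℂ)
    (hΦ : normSq Φ = 1) (hΦ' : normSq Φ' = 1) (z : ℂ)
    (hl : Link (∑ u, term (hh u) u) (∑ u, term (hh' u) u) O Δ E E' Φ Φ' z)
    (w : ℝ) (hw : 0 < w) (m n ν : ℕ) (hν : (2 * (ℓ + R) + 1) ^ 2 ≤ ν) (hν' : R ^ 4 ≤ ν)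
    (δ : ℝ) (hδ : δ = (1 / (w * Δ)) ^ m +
      L ^ 2 * ((2 * J * ν * (m * w)) ^ (n + 2) / (n + 2).factorial)) (η : ℝ) (hη : 0 < η)
    (hz : η ≤ ‖z‖) :
    ∃ W : TorOp d L, Sup {v | cd v c ≤ ℓ + (n + 4) * R} W ∧ ‖W‖ ≤ 1 ∧
      nr (Wᴴ *ᵥ Φ' - Φ) ≤ Real.sqrt (2 * δ / η) := by
  classical
  obtain ⟨T, hT, h1, h2⟩ := mixed hR hh hh' hherm hherm' J hJ hJ' c ℓ hfar O hO hO1 Δ hΔ E E' Φ Φ'
    hΦ hΦ' z hl w hw m n ν hν hν' δ hδ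
  obtain ⟨W, hW, hW1, hW2⟩ := uhl (univ.filter fun v => cd v c ≤ ℓ + (n + 4) * R) Φ Φ' hΦ hΦ'
    (2 * δ / η) (fun A hA => near_of_link T A (Sup.comm (by
      rw [Set.disjoint_left]
      intro v hv hv2
      exact hv (mem_filter.2 ⟨mem_univ _, hv2⟩)) hA hT) Φ Φ' hΦ hΦ' z δ η hη hz h1 h2)
  refine ⟨W, hW.mono fun v hv => ?_, hW1, ?_⟩
  · have h3 : v ∈ univ.filter fun v => cd v c ≤ ℓ + (n + 4) * R := hv
    exact (mem_filter.1 h3).2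
  rw [← nr_sq] at hW2
  exact Real.le_sqrt_of_sq_le hW2

open scoped Matrix.Norms.L2Operator in
/-- growth of a tensor network -/
theorem grow {N : ℕ} (hR : 0 < R) (J Δ : ℝ) (hΔ : 0 < Δ) (g : ℕ → Site L → BoxOp d R)
    (E : ℕ → ℝ) (Φ : ℕ → (Site L → Fin d) → ℂ) (c : ℕ → Site L) (O : ℕ → TorOp d L) (z : ℕ → ℂ)
    (ℓ : ℕ) (hherm : ∀ k ≤ N, ∀ u, (g k u).IsHermitian)
    (hJ : ∀ k ≤ N, ∀ u, ‖term (g k u) u‖ ≤ J) (hn : ∀ k ≤ N, normSq (Φ k) = 1)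
    (hfar : ∀ k < N, ∀ u, ℓ < cd u (c k) → g (k + 1) u = g k u)
    (hO : ∀ k < N, Sup {v | cd v (c k) ≤ ℓ} (O k)) (hO1 : ∀ k < N, ‖O k‖ ≤ 1)
    (hl : ∀ k < N, Link (∑ u, term (g k u) u) (∑ u, term (g (k + 1) u) u) (O k) Δ (E k)
      (E (k + 1)) (Φ k) (Φ (k + 1)) (z k))
    (η : ℝ) (hη : 0 < η) (hz : ∀ k < N, η ≤ ‖z k‖) (r : ℕ)
    (hr : ∀ u, ((range N).filter fun k => c k = u).card ≤ r)
    (w : ℝ) (hw : 0 < w) (m n ν : ℕ) (hν : (2 * (ℓ + R) + 1) ^ 2 ≤ ν) (hν' : R ^ 4 ≤ ν)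
    (δ : ℝ) (hδ : δ = (1 / (w * Δ)) ^ m +
      L ^ 2 * ((2 * J * ν * (m * w)) ^ (n + 2) / (n + 2).factorial))
    (ρ : ℕ) (hρ : ρ = ℓ + (n + 4) * R) (hs : 2 * ρ + 1 ≤ L) {D0 : ℕ} {φ : (Site L → Fin d) → ℂ}
    (hφ : IsPEPS D0 φ) (hφ1 : normSq φ = 1) (hpos : N * Real.sqrt (2 * δ / η) < ‖ip (Φ 0) φ‖) :
    ∃ (D : ℕ) (ψ : (Site L → Fin d) → ℂ),
      D ≤ D0 * (N * d ^ (2 * (2 * ρ + 1) ^ 2) + 1) ^ (r * (2 * ρ + 1) ^ 2) ∧ IsPEPS D ψ ∧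
        normSq ψ = 1 ∧ ‖ip (Φ 0) φ‖ - N * Real.sqrt (2 * δ / η) ≤ ‖ip (Φ N) ψ‖ := by
  classical
  obtain ⟨e, he⟩ : ∃ e, e = Real.sqrt (2 * δ / η) := ⟨_, rfl⟩
  rw [← he] at hpos ⊢
  have hne := nonempty_of_normSq φ hφ1
  have hstep : ∀ k : ℕ, ∃ W : TorOp d L, k < N →
      Sup {v | cd v (c k) ≤ ρ} W ∧ ‖W‖ ≤ 1 ∧ nr (Wᴴ *ᵥ Φ (k + 1) - Φ k) ≤ e := by
    intro k
    by_cases hk : k < N
    · obtain ⟨W, h1, h2, h3⟩ := hop hR (g k) (g (k + 1)) (hherm k hk.le) (hherm (k + 1) hk) J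
        (hJ k hk.le) (hJ (k + 1) hk) (c k) ℓ (hfar k hk) (O k) (hO k hk) (hO1 k hk) Δ hΔ (E k)
        (E (k + 1)) (Φ k) (Φ (k + 1)) (hn k hk.le) (hn (k + 1) hk) (z k) (hl k hk) w hw m n ν hν
        hν' δ hδ η hη (hz k hk)
      rw [← hρ] at h1
      rw [← he] at h3
      exact ⟨W, fun _ => ⟨h1, h2, h3⟩⟩
    · exact ⟨0, fun h => absurd h hk⟩
  choose W hW using hstep
  have hrev : ∀ i : Fin N, N - 1 - (i : ℕ) < N := fun i => by have := i.2; omega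
  have h1 := seq_ip e N (fun k => Φ (N - k)) (fun i => W (N - 1 - i)) (fun i => (hW _ (hrev i)).2.1)
    (fun i => by
      have h2 := (hW _ (hrev i)).2.2
      have h3 : N - 1 - (i : ℕ) + 1 = N - i := by have := i.2; omega
      have h4 : N - ((i : ℕ) + 1) = N - 1 - i := by omega
      rw [h3] at h2
      rw [h4]
      exact h2)
  simp only [tsub_zero, tsub_self] at h1
  obtain ⟨D, hD, hψ⟩ := seq_peps (R' := 2 * ρ) (r := r) hs (fun i : Fin N => corner ρ (c (N - 1 - i)))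
    (fun i => W (N - 1 - i)) (fun i => ((hW _ (hrev i)).1).mono (MK.ball_sub ρ _))
    (fun u => by
      refine le_trans ?_ (hr ((MK.cornerEquiv ρ).symm u))
      refine Finset.card_le_card_of_injOn (fun i : Fin N => N - 1 - (i : ℕ)) ?_ ?_
      · intro i hi
        have h2 := (mem_filter.1 (Finset.mem_coe.1 hi)).2
        refine Finset.mem_coe.2 (mem_filter.2 ⟨mem_range.2 (hrev i), ?_⟩)
        rw [← h2]
        exact ((MK.cornerEquiv ρ).symm_apply_apply _).symm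
      · intro i _ j _ hij
        have h2 := i.2
        have h3 := j.2
        apply Fin.ext
        simp only at hij
        omega) hφ
  obtain ⟨V, hV⟩ : ∃ V, V = op fun i : Fin N => W (N - 1 - i) := ⟨_, rfl⟩
  rw [← hV] at h1 hψ
  have hVn : ‖V‖ ≤ 1 := by
    have hnt : Nontrivial (TorOp d L) := inferInstance
    rw [hV]
    refine (norm_op_le (R := TorOp d L) (fun i : Fin N => W (N - 1 - i)) (fun _ => 1)
      (fun i => (hW _ (hrev i)).2.1)).trans ?_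
    simp
  have hnφ : nr φ = 1 := nr_one φ hφ1
  have h2 : ip (Φ N) (V *ᵥ φ) = ip (Φ 0) φ + ip (Vᴴ *ᵥ Φ N - Φ 0) φ := by
    rw [ip_adj, ip_sub_left]
    ring
  have h3 : ‖ip (Vᴴ *ᵥ Φ N - Φ 0) φ‖ ≤ N * e := by
    refine (ip_le _ _).trans ?_
    rw [hnφ, mul_one]
    exact h1
  have h4 : ‖ip (Φ 0) φ‖ - N * e ≤ ‖ip (Φ N) (V *ᵥ φ)‖ := by
    have h5 : ip (Φ 0) φ = ip (Φ N) (V *ᵥ φ) - ip (Vᴴ *ᵥ Φ N - Φ 0) φ := by rw [h2]; ring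
    have h6 := norm_sub_le (ip (Φ N) (V *ᵥ φ)) (ip (Vᴴ *ᵥ Φ N - Φ 0) φ)
    rw [← h5] at h6
    linarith
  have h5 : nr (V *ᵥ φ) ≤ 1 := by
    refine (nr_mulVec _ _).trans ?_
    rw [hnφ, mul_one]
    exact hVn
  have hnN : nr (Φ N) = 1 := nr_one _ (hn N le_rfl)
  have h6 : 0 < nr (V *ᵥ φ) := by
    have h7 := ip_le (Φ N) (V *ᵥ φ)
    rw [hnN, one_mul] at h7
    linarith
  obtain ⟨u1, u2, u3⟩ := unit_of hψ h6
  refine ⟨D, _, hD, u1, u2, ?_⟩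
  rw [u3, le_div_iff₀ h6]
  have h7 : 0 < ‖ip (Φ 0) φ‖ - N * e := by linarith
  calc (‖ip (Φ 0) φ‖ - N * e) * nr (V *ᵥ φ) ≤ (‖ip (Φ 0) φ‖ - N * e) * 1 :=
        mul_le_mul_of_nonneg_left h5 h7.le
    _ ≤ _ := by rw [mul_one]; exact h4

end torus

end Pool.Agent.T6.H19.GR
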