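import Pool.Agent.T6.H19.GR.Defs
import Pool.Agent.T6.H19.PQ.Chain

/-!
# The mixed evolution `exp(itH') O exp(-itH)` and its average

If `O` connects the ground vectors of two gapped Hamiltonians which differ near a site only, then an
average of the mixed evolution is a local operator which maps one ground vector to a multiple of
the other, and its adjoint maps the other back.
-/

set_option autoImplicit false
set_option linter.unusedSectionVars false

open scoped BigOperators Matrix InnerProductSpace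
open Finset Pool.Agent.TH235.PP Pool.Agent.T6.H19.PQ

namespace Pool.Agent.T6.H19.GR

section pair

variable {n : Type*} [Fintype n] [DecidableEq n]

theorem gs_neg (w om : ℝ) : gs w (-om) = gs w om := by
  unfold gs
  congr 1
  have h1 := intervalIntegral.integral_comp_neg (a := -w) (b := w)
    (fun t : ℝ => Complex.exp (t * (Complex.I * om)))
  rw [neg_neg] at h1
  rw [← h1]
  refine intervalIntegral.integral_congr fun t _ => ?_
  push_cast
  congr 1
  ring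

open scoped Matrix.Norms.L2Operator in
/-- the average and the projection onto the kernel -/
theorem avg_pair (H X : Matrix n n ℂ) (hH : H.IsHermitian) (Δ : ℝ) (hΔ : 0 < Δ)
    (Ψ p : n → ℂ) (hΨ : H *ᵥ Ψ = 0) (hp : H *ᵥ p = 0)
    (hr : ∀ (l : ℝ) (χ : n → ℂ), |l| < Δ → H *ᵥ χ = (l : ℂ) • χ → ip χ (X *ᵥ Ψ) = ip χ p)
    (w : ℝ) (hw : 0 < w) (m : ℕ) :
    nr (((PQ.avg H w)^[m] X) *ᵥ Ψ - p) ≤ (1 / (w * Δ)) ^ m * nr (X *ᵥ Ψ) := by
  set b := hH.eigenvectorBasis with hb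
  set lam := hH.eigenvalues with hlam
  have hAb : ∀ j, H *ᵥ (b j).ofLp = (lam j : ℂ) • (b j).ofLp := by
    intro j
    have := hH.mulVec_eigenvectorBasis j
    rw [this]
    rfl
  have hΨ' : H *ᵥ Ψ = ((0 : ℝ) : ℂ) • Ψ := by rw [hΨ, Complex.ofReal_zero, zero_smul]
  have hit : ∀ (m : ℕ) (j : n), ip (b j).ofLp (((PQ.avg H w)^[m] X) *ᵥ Ψ) =
      gs w (lam j - 0) ^ m * ip (b j).ofLp (X *ᵥ Ψ) := by
    intro m
    induction m with
    | zero => intro j; simp
    | succ m ih =>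
      intro j
      rw [Function.iterate_succ_apply', g_avg H _ b lam hAb Ψ 0 hΨ' w j, ih j, pow_succ']
      ring
  have hq : 0 ≤ 1 / (w * Δ) := by positivity
  have hp0 : ∀ j, lam j ≠ 0 → ip (b j).ofLp p = 0 := by
    intro j hj
    have e1 := g_ip_diag b H (fun j => (lam j : ℂ)) hAb p j
    rw [hp] at e1
    have e2 : ip (b j).ofLp (0 : n → ℂ) = 0 := by
      unfold ip; simp
    rw [e2] at e1
    rcases mul_eq_zero.mp e1.symm with h | h
    · exact absurd (by exact_mod_cast h) hj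
    · exact h
  obtain ⟨D, hD⟩ : ∃ D, D = ((PQ.avg H w)^[m] X) *ᵥ Ψ - p := ⟨_, rfl⟩
  rw [← hD]
  have hipD : ∀ j, ip (b j).ofLp D = gs w (lam j) ^ m * ip (b j).ofLp (X *ᵥ Ψ) -
      ip (b j).ofLp p := by
    intro j
    rw [hD, ip_sub_right, hit, sub_zero]
  have hbd : ∀ j, ‖ip (b j).ofLp D‖ ≤ (1 / (w * Δ)) ^ m * ‖ip (b j).ofLp (X *ᵥ Ψ)‖ := by
    intro j
    rw [hipD]
    by_cases hj : |lam j| < Δ
    · rw [hr _ _ hj (hAb j)]
      by_cases hj0 : lam j = 0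
      · rw [hj0, gs_zero w hw, one_pow, one_mul, sub_self, norm_zero]
        positivity
      · rw [hp0 j hj0, mul_zero, sub_zero, norm_zero, mul_zero]
    · push Not at hj
      have hj0 : lam j ≠ 0 := by
        intro h
        rw [h, abs_zero] at hj
        linarith
      rw [hp0 j hj0, sub_zero, norm_mul, norm_pow]
      refine mul_le_mul_of_nonneg_right ?_ (norm_nonneg _)
      refine pow_le_pow_left₀ (norm_nonneg _) ?_ m
      rcases le_abs.1 hj with h | h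
      · exact gs_bound w _ Δ hw hΔ h
      · rw [← gs_neg]
        exact gs_bound w _ Δ hw hΔ h
  apply le_of_sq_le_sq _ (by have := nr_nonneg (X *ᵥ Ψ); positivity)
  have hsq : ∀ x : n → ℂ, nr x ^ 2 = ∑ j, ‖ip (b j).ofLp x‖ ^ 2 := by
    intro x
    have := b.sum_sq_norm_inner_right (WithLp.toLp 2 x)
    unfold nr
    rw [← this]
    refine Finset.sum_congr rfl fun j _ => ?_
    rw [ip_eq]
  rw [mul_pow, hsq D, hsq (X *ᵥ Ψ), Finset.mul_sum]
  refine Finset.sum_le_sum fun j _ => ?_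
  rw [← mul_pow]
  exact pow_le_pow_left₀ (norm_nonneg _) (hbd j) 2

end pair

section blocks

variable {n : Type*} [Fintype n] [DecidableEq n]

/-- block diagonal -/
def dg (A B : Matrix n n ℂ) : Matrix (n ⊕ n) (n ⊕ n) ℂ := Matrix.fromBlocks A 0 0 B

/-- upper right block -/
def up (O : Matrix n n ℂ) : Matrix (n ⊕ n) (n ⊕ n) ℂ := Matrix.fromBlocks 0 O 0 0

theorem normSq_elim (x y : n → ℂ) : normSq (Sum.elim x y) = normSq x + normSq y := by
  unfold normSq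
  rw [Fintype.sum_sum_type]
  simp

theorem nr_elim_left (x y : n → ℂ) : nr x ≤ nr (Sum.elim x y) := by
  apply le_of_sq_le_sq _ (nr_nonneg _)
  rw [nr_sq, nr_sq, normSq_elim]
  have : 0 ≤ normSq y := Finset.sum_nonneg fun _ _ => by positivity
  linarith

theorem nr_elim_right (x y : n → ℂ) : nr y ≤ nr (Sum.elim x y) := by
  apply le_of_sq_le_sq _ (nr_nonneg _)
  rw [nr_sq, nr_sq, normSq_elim]
  have : 0 ≤ normSq x := Finset.sum_nonneg fun _ _ => by positivity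
  linarith

theorem nr_elim_zero (y : n → ℂ) : nr (Sum.elim (0 : n → ℂ) y) = nr y := by
  have h1 : nr (Sum.elim (0 : n → ℂ) y) ^ 2 = nr y ^ 2 := by
    rw [nr_sq, nr_sq, normSq_elim]
    unfold normSq; simp
  exact (pow_left_inj₀ (nr_nonneg _) (nr_nonneg _) two_ne_zero).1 h1

theorem nr_elim_zero' (x : n → ℂ) : nr (Sum.elim x (0 : n → ℂ)) = nr x := by
  have h1 : nr (Sum.elim x (0 : n → ℂ)) ^ 2 = nr x ^ 2 := by
    rw [nr_sq, nr_sq, normSq_elim]
    unfold normSq; simp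
  exact (pow_left_inj₀ (nr_nonneg _) (nr_nonneg _) two_ne_zero).1 h1

open scoped Matrix.Norms.L2Operator in
theorem opNorm_le {k : Type*} [Fintype k] [DecidableEq k] (A : Matrix k k ℂ) (C : ℝ) (hC : 0 ≤ C)
    (h : ∀ x : k → ℂ, nr (A *ᵥ x) ≤ C * nr x) : ‖A‖ ≤ C := by
  rw [Matrix.l2_opNorm_def]
  apply ContinuousLinearMap.opNorm_le_bound _ hC
  intro X
  exact h X.ofLp

theorem dg_mulVec (A B : Matrix n n ℂ) (x y : n → ℂ) :
    dg A B *ᵥ Sum.elim x y = Sum.elim (A *ᵥ x) (B *ᵥ y) := by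
  unfold dg
  rw [Matrix.fromBlocks_mulVec]
  simp

theorem up_mulVec (O : Matrix n n ℂ) (x y : n → ℂ) :
    up O *ᵥ Sum.elim x y = Sum.elim (O *ᵥ y) (0 : n → ℂ) := by
  unfold up
  rw [Matrix.fromBlocks_mulVec]
  simp

theorem up_star_mulVec (O : Matrix n n ℂ) (x y : n → ℂ) :
    star (up O) *ᵥ Sum.elim x y = Sum.elim (0 : n → ℂ) (Oᴴ *ᵥ x) := by
  unfold up
  rw [Matrix.star_eq_conjTranspose, Matrix.fromBlocks_conjTranspose, Matrix.fromBlocks_mulVec]
  simp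

open scoped Matrix.Norms.L2Operator in
theorem norm_dg (A B : Matrix n n ℂ) (J : ℝ) (hA : ‖A‖ ≤ J) (hB : ‖B‖ ≤ J) : ‖dg A B‖ ≤ J := by
  have hJ : 0 ≤ J := (norm_nonneg _).trans hA
  refine opNorm_le _ J hJ fun v => ?_
  obtain ⟨x, y, rfl⟩ : ∃ x y : n → ℂ, v = Sum.elim x y :=
    ⟨v ∘ Sum.inl, v ∘ Sum.inr, (Sum.elim_comp_inl_inr v).symm⟩
  rw [dg_mulVec]
  apply le_of_sq_le_sq _ (mul_nonneg hJ (nr_nonneg _))
  rw [mul_pow, nr_sq, nr_sq, normSq_elim, normSq_elim, ← nr_sq, ← nr_sq, ← nr_sq x, ← nr_sq y]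
  have h1 := pow_le_pow_left₀ (nr_nonneg _) ((nr_mulVec A x).trans
    (mul_le_mul_of_nonneg_right hA (nr_nonneg x))) 2
  have h2 := pow_le_pow_left₀ (nr_nonneg _) ((nr_mulVec B y).trans
    (mul_le_mul_of_nonneg_right hB (nr_nonneg y))) 2
  rw [mul_pow] at h1 h2
  linarith

open scoped Matrix.Norms.L2Operator in
theorem norm_up (O : Matrix n n ℂ) : ‖up O‖ ≤ ‖O‖ := by
  refine opNorm_le _ _ (norm_nonneg _) fun v => ?_
  obtain ⟨x, y, rfl⟩ : ∃ x y : n → ℂ, v = Sum.elim x y :=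
    ⟨v ∘ Sum.inl, v ∘ Sum.inr, (Sum.elim_comp_inl_inr v).symm⟩
  rw [up_mulVec, nr_elim_zero']
  exact (nr_mulVec _ _).trans (mul_le_mul_of_nonneg_left (nr_elim_right x y) (norm_nonneg _))

theorem dg_star (A B : Matrix n n ℂ) : star (dg A B) = dg (star A) (star B) := by
  unfold dg
  rw [Matrix.star_eq_conjTranspose, Matrix.fromBlocks_conjTranspose]
  simp [Matrix.star_eq_conjTranspose]

theorem dg_mul (A B C D : Matrix n n ℂ) : dg A B * dg C D = dg (A * C) (B * D) := by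
  unfold dg
  rw [Matrix.fromBlocks_multiply]
  simp

theorem dg_sub (A B C D : Matrix n n ℂ) : dg A B - dg C D = dg (A - C) (B - D) := by
  unfold dg
  rw [sub_eq_add_neg, Matrix.fromBlocks_neg, Matrix.fromBlocks_add]
  simp [sub_eq_add_neg]

theorem up_dg (O A B : Matrix n n ℂ) : up O * dg A B = up (O * B) := by
  unfold up dg
  rw [Matrix.fromBlocks_multiply]
  simp

theorem dg_up (O A B : Matrix n n ℂ) : dg A B * up O = up (A * O) := by
  unfold up dg
  rw [Matrix.fromBlocks_multiply]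
  simp

theorem dg_sum {ι : Type*} (s : Finset ι) (A B : ι → Matrix n n ℂ) :
    ∑ b ∈ s, dg (A b) (B b) = dg (∑ b ∈ s, A b) (∑ b ∈ s, B b) := by
  classical
  induction s using Finset.induction_on with
  | empty => simp [dg]
  | insert a s ha ih =>
    rw [Finset.sum_insert ha, Finset.sum_insert ha, Finset.sum_insert ha, ih]
    unfold dg
    rw [Matrix.fromBlocks_add]
    simp

/-- the operators with all blocks in `S` -/
def blkAlg (S : Subalgebra ℂ (Matrix n n ℂ)) : Subalgebra ℂ (Matrix (n ⊕ n) (n ⊕ n) ℂ) where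
  carrier := {Y | Y.toBlocks₁₁ ∈ S ∧ Y.toBlocks₁₂ ∈ S ∧ Y.toBlocks₂₁ ∈ S ∧ Y.toBlocks₂₂ ∈ S}
  mul_mem' := by
    rintro Y Z ⟨a1, a2, a3, a4⟩ ⟨b1, b2, b3, b4⟩
    have h : Y * Z = Matrix.fromBlocks (Y.toBlocks₁₁ * Z.toBlocks₁₁ + Y.toBlocks₁₂ * Z.toBlocks₂₁)
        (Y.toBlocks₁₁ * Z.toBlocks₁₂ + Y.toBlocks₁₂ * Z.toBlocks₂₂)
        (Y.toBlocks₂₁ * Z.toBlocks₁₁ + Y.toBlocks₂₂ * Z.toBlocks₂₁)
        (Y.toBlocks₂₁ * Z.toBlocks₁₂ + Y.toBlocks₂₂ * Z.toBlocks₂₂) := by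
      conv_lhs => rw [← Matrix.fromBlocks_toBlocks Y, ← Matrix.fromBlocks_toBlocks Z,
        Matrix.fromBlocks_multiply]
    simp only [Set.mem_ofPred_eq, h, Matrix.toBlocks_fromBlocks₁₁, Matrix.toBlocks_fromBlocks₁₂,
      Matrix.toBlocks_fromBlocks₂₁, Matrix.toBlocks_fromBlocks₂₂]
    exact ⟨S.add_mem (S.mul_mem a1 b1) (S.mul_mem a2 b3), S.add_mem (S.mul_mem a1 b2)
      (S.mul_mem a2 b4), S.add_mem (S.mul_mem a3 b1) (S.mul_mem a4 b3),
      S.add_mem (S.mul_mem a3 b2) (S.mul_mem a4 b4)⟩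
  add_mem' := by
    rintro Y Z ⟨a1, a2, a3, a4⟩ ⟨b1, b2, b3, b4⟩
    exact ⟨S.add_mem a1 b1, S.add_mem a2 b2, S.add_mem a3 b3, S.add_mem a4 b4⟩
  algebraMap_mem' := by
    intro c
    have h : algebraMap ℂ (Matrix (n ⊕ n) (n ⊕ n) ℂ) c =
        Matrix.fromBlocks (algebraMap ℂ (Matrix n n ℂ) c) 0 0 (algebraMap ℂ (Matrix n n ℂ) c) := by
      rw [Algebra.algebraMap_eq_smul_one, Algebra.algebraMap_eq_smul_one, ← Matrix.fromBlocks_one,
        Matrix.fromBlocks_smul]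
      simp
    simp only [Set.mem_ofPred_eq, h, Matrix.toBlocks_fromBlocks₁₁, Matrix.toBlocks_fromBlocks₁₂,
      Matrix.toBlocks_fromBlocks₂₁, Matrix.toBlocks_fromBlocks₂₂]
    exact ⟨S.algebraMap_mem c, S.zero_mem, S.zero_mem, S.algebraMap_mem c⟩

theorem dg_mem (S : Subalgebra ℂ (Matrix n n ℂ)) {A B : Matrix n n ℂ} (hA : A ∈ S) (hB : B ∈ S) :
    dg A B ∈ blkAlg S := by
  change (dg A B).toBlocks₁₁ ∈ S ∧ (dg A B).toBlocks₁₂ ∈ S ∧ (dg A B).toBlocks₂₁ ∈ S ∧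
    (dg A B).toBlocks₂₂ ∈ S
  unfold dg
  rw [Matrix.toBlocks_fromBlocks₁₁, Matrix.toBlocks_fromBlocks₁₂,
      Matrix.toBlocks_fromBlocks₂₁, Matrix.toBlocks_fromBlocks₂₂]
  exact ⟨hA, S.zero_mem, S.zero_mem, hB⟩

theorem up_mem (S : Subalgebra ℂ (Matrix n n ℂ)) {O : Matrix n n ℂ} (hO : O ∈ S) :
    up O ∈ blkAlg S := by
  change (up O).toBlocks₁₁ ∈ S ∧ (up O).toBlocks₁₂ ∈ S ∧ (up O).toBlocks₂₁ ∈ S ∧
    (up O).toBlocks₂₂ ∈ S
  unfold up
  rw [Matrix.toBlocks_fromBlocks₁₁, Matrix.toBlocks_fromBlocks₁₂,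
      Matrix.toBlocks_fromBlocks₂₁, Matrix.toBlocks_fromBlocks₂₂]
  exact ⟨S.zero_mem, hO, S.zero_mem, S.zero_mem⟩

end blocks

section shift

variable {𝔄 : Type*} [CStarAlgebra 𝔄]

theorem tau_shift (G D X : 𝔄) (h : G * D = D * G) (t : ℝ) :
    tau (G - D) t X = tau (-D) t (tau G t X) := by
  let _ : NormedAlgebra ℚ 𝔄 := NormedAlgebra.restrictScalars ℚ ℂ 𝔄
  have hc : ∀ s : ℝ, Commute (s • (Complex.I • G)) (s • (Complex.I • (-D))) := by
    intro s
    have h1 : Commute G (-D) := (show Commute G D from h).neg_right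
    exact (((h1.smul_left Complex.I).smul_right Complex.I).smul_left s).smul_right s
  have e1 : ∀ s : ℝ, NormedSpace.exp (s • (Complex.I • (G - D))) =
      NormedSpace.exp (s • (Complex.I • G)) * NormedSpace.exp (s • (Complex.I • (-D))) := by
    intro s
    rw [← NormedSpace.exp_add_of_commute (hc s), ← smul_add, ← smul_add, sub_eq_add_neg]
  have e2 : ∀ s : ℝ, NormedSpace.exp (s • (Complex.I • (G - D))) =
      NormedSpace.exp (s • (Complex.I • (-D))) * NormedSpace.exp (s • (Complex.I • G)) := by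
    intro s
    rw [← NormedSpace.exp_add_of_commute (hc s).symm, ← smul_add, ← smul_add, sub_eq_add_neg,
      add_comm]
  unfold tau
  rw [← neg_smul, ← neg_smul, ← neg_smul, e2, e1 (-t)]
  simp only [mul_assoc]

theorem tau_sub' (H X Y : 𝔄) (t : ℝ) : tau H t (X - Y) = tau H t X - tau H t Y := by
  simp only [tau, mul_sub, sub_mul]

theorem star_avg_gen (H : 𝔄) (hH : star H = H) (w : ℝ) (X : 𝔄) :
    star (avg H w X) = avg H w (star X) := by
  rw [PQ.avg, star_smul, star_integral _ (cont_tau H X)]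
  simp only [star_tau H hH, star_trivial]
  rfl

theorem star_avg_iter_gen (H : 𝔄) (hH : star H = H) (w : ℝ) (X : 𝔄) (j : ℕ) :
    star ((avg H w)^[j] X) = (avg H w)^[j] (star X) := by
  induction j with
  | zero => simp
  | succ j ih =>
    rw [Function.iterate_succ_apply', Function.iterate_succ_apply', star_avg_gen H hH, ih]

theorem avg_iter_near (G G0 D X : 𝔄) (hD : star D = D) (h : G * D = D * G) (h0 : G0 * D = D * G0)
    (w : ℝ) (hw : 0 < w) (m : ℕ) (ε : ℝ)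
    (hε : ∀ t : ℝ, |t| ≤ m * w → ‖tau G t X - tau G0 t X‖ ≤ ε) :
    ‖(avg (G - D) w)^[m] X - (avg (G0 - D) w)^[m] X‖ ≤ ε := by
  have h1 := tau_avg_iter_diff (G - D) (G0 - D) X w hw m ε (fun t ht => by
    rw [tau_shift G D X h t, tau_shift G0 D X h0 t, ← tau_sub', norm_tau _ (by rw [star_neg, hD])]
    exact hε t ht) m 0 (by simp)
  rwa [tau_zero, tau_zero] at h1

end shift

section ball

variable {L : ℕ} [NeZero L]

theorem ball_card (ρ : ℕ) (c : Site L) :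
    ((univ : Finset (Site L)).filter fun b => cd b c ≤ ρ).card ≤ (2 * ρ + 1) ^ 2 := by
  classical
  have h1 : ((univ : Finset (Site L)).filter fun b => cd b c ≤ ρ) ⊆
      (univ : Finset (Fin (2 * ρ + 1) × Fin (2 * ρ + 1))).image fun x => sh (corner ρ c) x := by
    intro b hb
    have h2 := box_sub (R := 1) (ρ := ρ) (b := b) (c := c) (mem_filter.1 hb).2
    have h3 : b ∈ box 1 b := ⟨(0, 0), by simp [sh]⟩
    obtain ⟨x, hx⟩ := h2 h3
    exact mem_image.2 ⟨x, mem_univ _, hx⟩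
  refine (card_le_card h1).trans (card_image_le.trans ?_)
  rw [card_univ, Fintype.card_prod, Fintype.card_fin]
  exact le_of_eq (by ring)

end ball

section main

theorem ip_smul_right' {n : Type*} [Fintype n] (c : ℂ) (x y : n → ℂ) :
    ip x (c • y) = c * ip x y := by
  unfold ip
  rw [Finset.mul_sum]
  exact Finset.sum_congr rfl fun s _ => by rw [Pi.smul_apply, smul_eq_mul]; ring

theorem ip_elim {n : Type*} [Fintype n] (x y x' y' : n → ℂ) :
    ip (Sum.elim x y) (Sum.elim x' y') = ip x x' + ip y y' := by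
  unfold ip
  rw [Fintype.sum_sum_type]
  simp

open scoped Matrix.Norms.L2Operator in
/-- the averaged mixed evolution on the two ground vectors -/
theorem mixed_ground {n : Type*} [Fintype n] [DecidableEq n] (H H' O : Matrix n n ℂ)
    (hH : H.IsHermitian) (hH' : H'.IsHermitian) (hO1 : ‖O‖ ≤ 1) (Δ : ℝ) (hΔ : 0 < Δ) (E E' : ℝ)
    (Φ Φ' : n → ℂ) (hΦ : normSq Φ = 1) (hΦ' : normSq Φ' = 1) (z : ℂ)
    (hl : Link H H' O Δ E E' Φ Φ' z)
    (w : ℝ) (hw : 0 < w) (m : ℕ) (D : Matrix (n ⊕ n) (n ⊕ n) ℂ)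
    (hD : D = dg ((E' : ℂ) • (1 : Matrix n n ℂ)) ((E : ℂ) • 1)) :
    nr (((PQ.avg (dg H' H - D) w)^[m] (up O)) *ᵥ Sum.elim (0 : n → ℂ) Φ - Sum.elim (z • Φ') (0 : n → ℂ)) ≤
        (1 / (w * Δ)) ^ m ∧
      nr (star ((PQ.avg (dg H' H - D) w)^[m] (up O)) *ᵥ Sum.elim Φ' (0 : n → ℂ) -
        Sum.elim (0 : n → ℂ) ((starRingEnd ℂ) z • Φ)) ≤ (1 / (w * Δ)) ^ m := by
  have hK : dg H' H - D = dg (H' - (E' : ℂ) • 1) (H - (E : ℂ) • 1) := by
    rw [hD, dg_sub]
  have hs : ∀ (A : Matrix n n ℂ) (e : ℝ), A.IsHermitian →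
      star (A - (e : ℂ) • (1 : Matrix n n ℂ)) = A - (e : ℂ) • 1 := by
    intro A e hA
    rw [star_sub, star_smul, star_one]
    have : star A = A := hA
    rw [this]
    simp
  have hKs : star (dg H' H - D) = dg H' H - D := by
    rw [hK, dg_star, hs H' E' hH', hs H E hH]
  have hKm : ∀ x y : n → ℂ, (dg H' H - D) *ᵥ Sum.elim x y =
      Sum.elim (H' *ᵥ x - (E' : ℂ) • x) (H *ᵥ y - (E : ℂ) • y) := by
    intro x y
    rw [hK, dg_mulVec, Matrix.sub_mulVec, Matrix.sub_mulVec, Matrix.smul_mulVec,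
      Matrix.smul_mulVec, Matrix.one_mulVec, Matrix.one_mulVec]
  have hdec : ∀ v : n ⊕ n → ℂ, ∃ x y : n → ℂ, v = Sum.elim x y := fun v =>
    ⟨v ∘ Sum.inl, v ∘ Sum.inr, (Sum.elim_comp_inl_inr v).symm⟩
  have hel : ∀ x y x' y' : n → ℂ, Sum.elim x y = Sum.elim x' y' → x = x' ∧ y = y' := by
    intro x y x' y' h
    exact ⟨by simpa using congrArg (fun f => f ∘ Sum.inl) h,
      by simpa using congrArg (fun f => f ∘ Sum.inr) h⟩
  have hsm : ∀ (l : ℂ) (x y : n → ℂ), l • Sum.elim x y = Sum.elim (l • x) (l • y) := by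
    intro l x y
    funext i
    cases i <;> rfl
  have hz0 : (0 : n ⊕ n → ℂ) = Sum.elim (0 : n → ℂ) (0 : n → ℂ) := by
    funext i
    cases i <;> rfl
  obtain ⟨hg, hg', hl1, hl2⟩ := hl
  have hker : ∀ (l : ℝ) (x y : n → ℂ), (dg H' H - D) *ᵥ Sum.elim x y = (l : ℂ) • Sum.elim x y →
      H' *ᵥ x = ((E' + l : ℝ) : ℂ) • x ∧ H *ᵥ y = ((E + l : ℝ) : ℂ) • y := by
    intro l x y h1
    rw [hKm, hsm] at h1
    obtain ⟨h2, h3⟩ := hel _ _ _ _ h1
    constructor
    · rw [sub_eq_iff_eq_add] at h2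
      rw [h2, Complex.ofReal_add, add_smul, add_comm]
    · rw [sub_eq_iff_eq_add] at h3
      rw [h3, Complex.ofReal_add, add_smul, add_comm]
  have hn : nr Φ = 1 := nr_one Φ hΦ
  have hn' : nr Φ' = 1 := nr_one Φ' hΦ'
  have hq : ∀ m : ℕ, 0 ≤ (1 / (w * Δ)) ^ m := fun m => by positivity
  constructor
  · have h1 := avg_pair (dg H' H - D) (up O) hKs Δ hΔ
      (Sum.elim (0 : n → ℂ) Φ) (Sum.elim (z • Φ') (0 : n → ℂ))
      (by rw [hKm, hg, hz0]; simp) (by
        rw [hKm, hz0, Matrix.mulVec_smul, hg', smul_comm]; simp)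
      (by
        intro l χ hlt hχ
        obtain ⟨x, y, rfl⟩ := hdec χ
        obtain ⟨h2, -⟩ := hker l x y hχ
        rw [up_mulVec, ip_elim, ip_elim, hl1 _ x (by rw [add_sub_cancel_left]; exact hlt) h2,
          ip_smul_right']) w hw m
    refine h1.trans (mul_le_of_le_one_right (hq m) ?_)
    rw [up_mulVec, nr_elim_zero']
    refine (nr_mulVec _ _).trans ?_
    rw [hn, mul_one]
    exact hO1
  · rw [star_avg_iter_gen _ hKs]
    have h1 := avg_pair (dg H' H - D) (star (up O)) hKs Δ hΔ (Sum.elim Φ' (0 : n → ℂ))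
      (Sum.elim (0 : n → ℂ) ((starRingEnd ℂ) z • Φ))
      (by rw [hKm, hg', hz0]; simp) (by
        rw [hKm, hz0, Matrix.mulVec_smul, hg, smul_comm]; simp)
      (by
        intro l χ hlt hχ
        obtain ⟨x, y, rfl⟩ := hdec χ
        obtain ⟨-, h2⟩ := hker l x y hχ
        rw [up_star_mulVec, ip_elim, ip_elim, hl2 _ y (by rw [add_sub_cancel_left]; exact hlt) h2,
          ip_smul_right']) w hw m
    refine h1.trans (mul_le_of_le_one_right (hq m) ?_)
    rw [up_star_mulVec, nr_elim_zero]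
    refine (nr_mulVec _ _).trans ?_
    rw [hn', mul_one, Matrix.l2_opNorm_conjTranspose]
    exact hO1

open scoped Matrix.Norms.L2Operator in
/-- module MIX: the mixed evolution and the filter -/
theorem mixed {d R L : ℕ} [NeZero L] (hR : 0 < R) (hh hh' : Site L → BoxOp d R)
    (hherm : ∀ u, (hh u).IsHermitian) (hherm' : ∀ u, (hh' u).IsHermitian) (J : ℝ)
    (hJ : ∀ u, ‖term (hh u) u‖ ≤ J) (hJ' : ∀ u, ‖term (hh' u) u‖ ≤ J) (c : Site L) (ℓ : ℕ)
    (hfar : ∀ u, ℓ < cd u c → hh' u = hh u) (O : TorOp d L) (hO : Sup {v | cd v c ≤ ℓ} O)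
    (hO1 : ‖O‖ ≤ 1) (Δ : ℝ) (hΔ : 0 < Δ) (E E' : ℝ) (Φ Φ' : (Site L → Fin d) → ℂ)
    (hΦ : normSq Φ = 1) (hΦ' : normSq Φ' = 1) (z : ℂ)
    (hl : Link (∑ u, term (hh u) u) (∑ u, term (hh' u) u) O Δ E E' Φ Φ' z)
    (w : ℝ) (hw : 0 < w) (m n ν : ℕ) (hν : (2 * (ℓ + R) + 1) ^ 2 ≤ ν) (hν' : R ^ 4 ≤ ν)
    (δ : ℝ) (hδ : δ = (1 / (w * Δ)) ^ m +
      L ^ 2 * ((2 * J * ν * (m * w)) ^ (n + 2) / (n + 2).factorial)) :
    ∃ T : TorOp d L, Sup {v | cd v c ≤ ℓ + (n + 4) * R} T ∧ nr (T *ᵥ Φ - z • Φ') ≤ δ ∧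
      nr (Tᴴ *ᵥ Φ' - (starRingEnd ℂ) z • Φ) ≤ δ := by
  classical
  obtain ⟨H, hHd⟩ : ∃ H, H = ∑ u, term (hh u) u := ⟨_, rfl⟩
  obtain ⟨H', hHd'⟩ : ∃ H', H' = ∑ u, term (hh' u) u := ⟨_, rfl⟩
  rw [← hHd, ← hHd'] at hl
  have hs : ∀ b : Site L, star (term (hh b) b) = term (hh b) b := fun b =>
    term_herm (hh b) (hherm b) b
  have hs' : ∀ b : Site L, star (term (hh' b) b) = term (hh' b) b := fun b =>
    term_herm (hh' b) (hherm' b) b
  have hH : H.IsHermitian := by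
    have h1 : star H = H := by
      rw [hHd, star_sum]
      exact Finset.sum_congr rfl fun b _ => hs b
    exact h1
  have hH' : H'.IsHermitian := by
    have h1 : star H' = H' := by
      rw [hHd', star_sum]
      exact Finset.sum_congr rfl fun b _ => hs' b
    exact h1
  obtain ⟨D, hD⟩ : ∃ D, D = dg ((E' : ℂ) • (1 : TorOp d L)) ((E : ℂ) • 1) := ⟨_, rfl⟩
  obtain ⟨h1, h2⟩ := mixed_ground H H' O hH hH' hO1 Δ hΔ E E' Φ Φ' hΦ hΦ' z hl w hw m D hD
  -- localization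
  obtain ⟨Λ0, hΛ0⟩ : ∃ Λ0 : Finset (Site L), Λ0 = univ.filter fun b => cd b c ≤ ℓ + (n + 2) * R :=
    ⟨_, rfl⟩
  obtain ⟨H0, hH0⟩ : ∃ H0, H0 = ∑ b ∈ Λ0, term (hh b) b := ⟨_, rfl⟩
  obtain ⟨H0', hH0'⟩ : ∃ H0', H0' = ∑ b ∈ Λ0, term (hh' b) b := ⟨_, rfl⟩
  have hJ0 : 0 ≤ J := (norm_nonneg _).trans (hJ c)
  have hcomm : ∀ (A : TorOp d L) (b : Site L), Sup {v | cd v c ≤ ℓ} A → ℓ + R < cd b c →
      ∀ k : BoxOp d R, A * term k b = term k b * A := by
    intro A b hA hb k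
    refine Sup.comm ?_ hA (sup_term k b)
    rw [Set.disjoint_left]
    intro v hv hv2
    have h3 : box R b ⊆ box (2 * 0 + R) (corner 0 b) := box_sub (by rw [cd_self])
    have h4 : cd v b < R := by
      have h5 : adj R v b → cd v b < R := adj_cd
      apply h5
      rw [adj_iff]
      obtain ⟨x, hx⟩ := hv2
      exact ⟨(⟨0, hR⟩, ⟨0, hR⟩), x, by rw [hx]; simp [sh]⟩
    have h5 := cd_tri b v c
    rw [cd_comm b v] at h5
    have h6 : cd v c ≤ ℓ := hv
    omega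
  have hloc : ∀ t : ℝ, ‖tau (dg H' H) t (up O) - tau (dg H0' H0) t (up O)‖ ≤
      L ^ 2 * ((2 * J * ν * |t|) ^ (n + 2) / (n + 2).factorial) := by
    intro t
    have hcard : ((univ : Finset (Site L)).card : ℝ) = L ^ 2 := by
      rw [card_univ, card_site]
      push_cast
      ring
    have hb := local_bound (univ : Finset (Site L)) Λ0 (univ.filter fun b => cd b c ≤ ℓ + R)
      (by rw [hΛ0]; exact filter_subset _ _) (fun b => dg (term (hh' b) b) (term (hh b) b))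
      (fun b => by rw [dg_star, hs, hs']) J (fun b => norm_dg _ _ J (hJ' b) (hJ b)) (adj R)
      (adj_refl hR)
      (fun b b' hbb => by
        have h1 : Disjoint (box R b) (box R b') := not_not.1 hbb
        rw [dg_mul, dg_mul, Sup.comm h1 (sup_term (hh b) b) (sup_term (hh b') b'),
          Sup.comm h1 (sup_term (hh' b) b) (sup_term (hh' b') b')])
      ν (fun b => by
        obtain ⟨T, hT, hT2⟩ := adj_card R b
        exact ⟨T, hT.trans hν', hT2⟩) (up O)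
      (fun b hb => by
        have h3 : ℓ + R < cd b c := by
          by_contra h4
          exact hb (mem_filter.2 ⟨mem_univ _, by omega⟩)
        rw [up_dg, dg_up, hfar b (by omega), hcomm O b hO h3])
      ((ball_card _ _).trans hν)
      n (lev R) (fun b b' b'' h => lev_step hR b b' b'' h) (fun b b' h => lev_zero b b' h)
      (fun b _ hb b' hb' => by
        have h3 : ¬ cd b c ≤ ℓ + (n + 2) * R := fun h => hb (by
          rw [hΛ0]; exact mem_filter.2 ⟨mem_univ _, h⟩)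
        have h4 := (mem_filter.1 hb').2
        have h5 := cd_tri b b' c
        unfold lev
        rw [Nat.le_div_iff_mul_le hR]
        have h6 : (n + 2) * R = (n + 1) * R + R := by ring
        omega) t
    rw [dg_sum, dg_sum, ← hHd, ← hHd', ← hH0, ← hH0', hcard] at hb
    refine hb.trans ?_
    have h3 : ‖up O‖ ≤ 1 := (norm_up O).trans hO1
    have h4 : 0 ≤ (2 * J * ν * |t|) ^ (n + 2) / (n + 2).factorial := by positivity
    refine mul_le_mul_of_nonneg_right ?_ h4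
    exact mul_le_of_le_one_right (by positivity) h3
  have hDs : star D = D := by
    rw [hD, dg_star]
    simp
  have hDc : ∀ A B : TorOp d L, dg A B * D = D * dg A B := by
    intro A B
    rw [hD, dg_mul, dg_mul]
    simp
  have hnear := avg_iter_near (dg H' H) (dg H0' H0) D (up O) hDs (hDc _ _) (hDc _ _) w hw m
    (L ^ 2 * ((2 * J * ν * (m * w)) ^ (n + 2) / (n + 2).factorial)) (fun t ht => by
      refine (hloc t).trans ?_
      refine mul_le_mul_of_nonneg_left ?_ (by positivity)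
      refine div_le_div_of_nonneg_right ?_ (by positivity)
      refine pow_le_pow_left₀ (by positivity) ?_ _
      exact mul_le_mul_of_nonneg_left ht (by positivity))
  obtain ⟨T1, hT1⟩ : ∃ T1, T1 = (PQ.avg (dg H' H - D) w)^[m] (up O) := ⟨_, rfl⟩
  obtain ⟨T0, hT0⟩ : ∃ T0, T0 = (PQ.avg (dg H0' H0 - D) w)^[m] (up O) := ⟨_, rfl⟩
  rw [← hT1] at h1 h2 hnear
  rw [← hT0] at hnear
  -- the support
  obtain ⟨S, hS⟩ : ∃ S : Subalgebra ℂ (TorOp d L), S = supAlg d {v | cd v c ≤ ℓ + (n + 4) * R} :=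
    ⟨_, rfl⟩
  have hmem : ∀ {X : TorOp d L}, X ∈ S ↔ Sup {v | cd v c ≤ ℓ + (n + 4) * R} X := fun {X} => by
    rw [hS]; exact Iff.rfl
  have hOS : O ∈ S := hmem.2 (hO.mono fun v hv => le_trans hv (Nat.le_add_right _ _))
  have htS : ∀ (k : BoxOp d R) (b : Site L), b ∈ Λ0 → (term k b : TorOp d L) ∈ S := by
    intro k b hb
    rw [hmem]
    refine (sup_term k b).mono ?_
    intro v hv
    rw [hΛ0] at hb
    have h3 := (mem_filter.1 hb).2
    have h4 : cd v b < R := by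
      apply adj_cd
      rw [adj_iff]
      obtain ⟨x, hx⟩ := hv
      exact ⟨(⟨0, hR⟩, ⟨0, hR⟩), x, by rw [hx]; simp [sh]⟩
    have h5 := cd_tri v b c
    have h6 : (n + 4) * R = (n + 2) * R + R + R := by ring
    show cd v c ≤ ℓ + (n + 4) * R
    omega
  have hS0 : H0 ∈ S := by
    rw [hH0]
    exact Subalgebra.sum_mem _ fun b hb => htS _ b hb
  have hS0' : H0' ∈ S := by
    rw [hH0']
    exact Subalgebra.sum_mem _ fun b hb => htS _ b hb
  have hT0S : T0 ∈ blkAlg S := by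
    rw [hT0]
    refine avg_iter_mem (blkAlg S) ?_ _ _ ?_ (up_mem S hOS) w m
    · exact (Submodule.closed_of_finiteDimensional (Subalgebra.toSubmodule (blkAlg S)))
    · refine Subalgebra.sub_mem _ (dg_mem S hS0' hS0) ?_
      rw [hD]
      exact dg_mem S (S.smul_mem S.one_mem _) (S.smul_mem S.one_mem _)
  have hn : nr Φ = 1 := nr_one Φ hΦ
  have hn' : nr Φ' = 1 := nr_one Φ' hΦ'
  have hsub : ∀ a b a' b' : (Site L → Fin d) → ℂ, Sum.elim a b - Sum.elim a' b' =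
      Sum.elim (a - a') (b - b') := by
    intro a b a' b'
    funext i
    cases i <;> rfl
  refine ⟨T0.toBlocks₁₂, hmem.1 hT0S.2.1, ?_, ?_⟩
  · have h3 : T0 *ᵥ Sum.elim (0 : (Site L → Fin d) → ℂ) Φ = Sum.elim (T0.toBlocks₁₂ *ᵥ Φ) (T0.toBlocks₂₂ *ᵥ Φ) := by
      conv_lhs => rw [← Matrix.fromBlocks_toBlocks T0, Matrix.fromBlocks_mulVec]
      simp
    have h4 : nr (T0 *ᵥ Sum.elim (0 : (Site L → Fin d) → ℂ) Φ - Sum.elim (z • Φ') (0 : (Site L → Fin d) → ℂ)) ≤ δ := by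
      have h5 : T0 *ᵥ Sum.elim (0 : (Site L → Fin d) → ℂ) Φ - Sum.elim (z • Φ') (0 : (Site L → Fin d) → ℂ) =
          (T1 *ᵥ Sum.elim (0 : (Site L → Fin d) → ℂ) Φ - Sum.elim (z • Φ') (0 : (Site L → Fin d) → ℂ)) - (T1 - T0) *ᵥ Sum.elim (0 : (Site L → Fin d) → ℂ) Φ := by
        rw [Matrix.sub_mulVec]; abel
      rw [h5, hδ]
      refine (nr_sub_le _ _).trans (add_le_add h1 ?_)
      refine (nr_mulVec _ _).trans ?_
      rw [nr_elim_zero, hn, mul_one]
      exact hnear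
    refine le_trans ?_ h4
    rw [h3, hsub]
    exact nr_elim_left _ _
  · have h3 : star T0 *ᵥ Sum.elim Φ' (0 : (Site L → Fin d) → ℂ) =
        Sum.elim (T0.toBlocks₁₁ᴴ *ᵥ Φ') (T0.toBlocks₁₂ᴴ *ᵥ Φ') := by
      conv_lhs => rw [← Matrix.fromBlocks_toBlocks T0, Matrix.star_eq_conjTranspose,
        Matrix.fromBlocks_conjTranspose, Matrix.fromBlocks_mulVec]
      simp
    have h4 : nr (star T0 *ᵥ Sum.elim Φ' (0 : (Site L → Fin d) → ℂ) - Sum.elim (0 : (Site L → Fin d) → ℂ) ((starRingEnd ℂ) z • Φ)) ≤ δ := by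
      have h5 : star T0 *ᵥ Sum.elim Φ' (0 : (Site L → Fin d) → ℂ) - Sum.elim (0 : (Site L → Fin d) → ℂ) ((starRingEnd ℂ) z • Φ) =
          (star T1 *ᵥ Sum.elim Φ' (0 : (Site L → Fin d) → ℂ) - Sum.elim (0 : (Site L → Fin d) → ℂ) ((starRingEnd ℂ) z • Φ)) -
            star (T1 - T0) *ᵥ Sum.elim Φ' (0 : (Site L → Fin d) → ℂ) := by
        rw [star_sub, Matrix.sub_mulVec]; abel
      rw [h5, hδ]
      refine (nr_sub_le _ _).trans (add_le_add h2 ?_)
      refine (nr_mulVec _ _).trans ?_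
      rw [nr_elim_zero', hn', mul_one, norm_star]
      exact hnear
    refine le_trans ?_ h4
    rw [h3, hsub]
    exact nr_elim_right _ _

end main

end Pool.Agent.T6.H19.GR
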