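import Pool.Agent.T6.H19.GR.Asm

/-!
# Growth by local changes: choice of the parameters
-/

set_option autoImplicit false
set_option linter.unusedSectionVars false

open scoped BigOperators Matrix InnerProductSpace
open Finset Pool.Agent.TH235.PP Pool.Agent.T6.H19.PQ
  Pool.Agent.Results.MP_953b23_mp.OverlapBoosting

namespace Pool.Agent.T6.H19.GR

theorem third_pow (m : ℕ) : (1 / 3 : ℝ) ^ m ≤ Real.exp (-m) := by
  have h1 : (1 / 3 : ℝ) ≤ Real.exp (-1) := by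
    rw [Real.exp_neg, ← one_div]
    apply one_div_le_one_div_of_le (Real.exp_pos _)
    have := Real.exp_one_lt_d9
    linarith
  calc (1 / 3 : ℝ) ^ m ≤ Real.exp (-1) ^ m := pow_le_pow_left₀ (by norm_num) h1 m
    _ = Real.exp (-m) := by
        rw [← Real.exp_nat_mul]
        congr 1
        ring

theorem exp_three' : (16 : ℝ) ≤ Real.exp 3 := by
  have h1 := Real.exp_one_gt_d9
  have h2 : Real.exp 3 = Real.exp 1 ^ 3 := by rw [← Real.exp_nat_mul]; norm_num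
  rw [h2]
  have h3 : (2.7182818283 : ℝ) ^ 3 ≤ Real.exp 1 ^ 3 := pow_le_pow_left₀ (by norm_num) h1.le 3
  norm_num at h3
  linarith

/-- the error -/
theorem err_bound (q N L δ : ℝ) (hq : 1 ≤ q) (hN0 : 0 ≤ N) (hL0 : 0 ≤ L) (hL : L ≤ Real.exp q)
    (hN : N ≤ q * L ^ 2) (A F : ℝ) (hδ : δ = A + L ^ 2 * F) (hA : A ≤ Real.exp (-(12 * q)))
    (hF : F ≤ Real.exp (-(14 * q))) (hF0 : 0 ≤ F) :
    N * Real.sqrt (2 * δ / Real.exp (-q)) ≤ Real.exp (-q) / 2 := by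
  have hL2 : L ^ 2 ≤ Real.exp (2 * q) := by
    calc L ^ 2 ≤ Real.exp q ^ 2 := pow_le_pow_left₀ hL0 hL 2
      _ = Real.exp (2 * q) := by rw [← Real.exp_nat_mul]; norm_num
  have hqe : q ≤ Real.exp q := by
    have := Real.add_one_le_exp q
    linarith
  have hN3 : N ≤ Real.exp (3 * q) := by
    calc N ≤ q * L ^ 2 := hN
      _ ≤ Real.exp q * Real.exp (2 * q) := mul_le_mul hqe hL2 (by positivity) (Real.exp_pos _).le
      _ = Real.exp (3 * q) := by rw [← Real.exp_add]; congr 1; ring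
  have hδ1 : δ ≤ Real.exp (-(9 * q)) / 8 := by
    have h1 : L ^ 2 * F ≤ Real.exp (-(12 * q)) := by
      calc L ^ 2 * F ≤ Real.exp (2 * q) * Real.exp (-(14 * q)) :=
            mul_le_mul hL2 hF hF0 (Real.exp_pos _).le
        _ = Real.exp (-(12 * q)) := by rw [← Real.exp_add]; congr 1; ring
    have h2 : Real.exp (-(12 * q)) ≤ Real.exp (-(9 * q)) / 16 := by
      rw [le_div_iff₀ (by norm_num)]
      calc Real.exp (-(12 * q)) * 16 ≤ Real.exp (-(12 * q)) * Real.exp (3 * q) := by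
            refine mul_le_mul_of_nonneg_left ?_ (Real.exp_pos _).le
            exact exp_three'.trans (Real.exp_le_exp.2 (by linarith))
        _ = Real.exp (-(9 * q)) := by rw [← Real.exp_add]; congr 1; ring
    rw [hδ]
    linarith
  have h3 : 2 * δ / Real.exp (-q) ≤ (Real.exp (-(4 * q)) / 2) ^ 2 := by
    rw [div_le_iff₀ (Real.exp_pos _)]
    have h4 : (Real.exp (-(4 * q)) / 2) ^ 2 * Real.exp (-q) = Real.exp (-(9 * q)) / 4 := by
      rw [div_pow, ← Real.exp_nat_mul, div_mul_eq_mul_div, ← Real.exp_add]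
      norm_num
      ring_nf
    rw [h4]
    linarith
  have h5 : Real.sqrt (2 * δ / Real.exp (-q)) ≤ Real.exp (-(4 * q)) / 2 := by
    rw [← Real.sqrt_sq (show (0 : ℝ) ≤ Real.exp (-(4 * q)) / 2 by positivity)]
    exact Real.sqrt_le_sqrt h3
  calc N * Real.sqrt (2 * δ / Real.exp (-q)) ≤ Real.exp (3 * q) * (Real.exp (-(4 * q)) / 2) :=
        mul_le_mul hN3 h5 (Real.sqrt_nonneg _) (Real.exp_pos _).le
    _ = Real.exp (-q) / 2 := by
        rw [← mul_div_assoc, ← Real.exp_add]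
        congr 2
        ring

open scoped Matrix.Norms.L2Operator in
/-- growth of a PEPS, with explicit parameters -/
theorem grow_q {d R L N : ℕ} [NeZero L] (P Q : ℕ) (hP : 1 ≤ P) (hQ : 1 ≤ Q) (hR : 0 < R)
    (hRP : R ≤ P) (hd : (d : ℝ) ≤ Real.exp P) (hLQ : (L : ℝ) ≤ Real.exp Q)
    (hbig : 28807 * P ^ 7 * Q ≤ L) (g : ℕ → Site L → BoxOp d R)
    (E : ℕ → ℝ) (Φ : ℕ → (Site L → Fin d) → ℂ) (c : ℕ → Site L) (O : ℕ → TorOp d L) (z : ℕ → ℂ)
    (hherm : ∀ k ≤ N, ∀ u, (g k u).IsHermitian)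
    (hJ : ∀ k ≤ N, ∀ u, ‖term (g k u) u‖ ≤ P) (hn : ∀ k ≤ N, normSq (Φ k) = 1)
    (hfar : ∀ k < N, ∀ u, P < cd u (c k) → g (k + 1) u = g k u)
    (hO : ∀ k < N, Sup {v | cd v (c k) ≤ P} (O k)) (hO1 : ∀ k < N, ‖O k‖ ≤ 1)
    (hl : ∀ k < N, Link (∑ u, term (g k u) u) (∑ u, term (g (k + 1) u) u) (O k) (1 / P) (E k)
      (E (k + 1)) (Φ k) (Φ (k + 1)) (z k))
    (hz : ∀ k < N, Real.exp (-Q) ≤ ‖z k‖)
    (hr : ∀ u, ((range N).filter fun k => c k = u).card ≤ Q)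
    {D0 : ℕ} {φ : (Site L → Fin d) → ℂ} (hφ : IsPEPS D0 φ) (hφ1 : normSq φ = 1)
    (hov : Real.exp (-Q) ≤ ‖ip (Φ 0) φ‖) :
    ∃ (D : ℕ) (ψ : (Site L → Fin d) → ℂ),
      (D : ℝ) ≤ D0 * Real.exp (2 * 10 ^ 18 * P ^ 29 * Q ^ 5) ∧ IsPEPS D ψ ∧ normSq ψ = 1 ∧
        ‖ip (Φ 0) φ‖ / 2 ≤ ‖ip (Φ N) ψ‖ := by
  classical
  have hp : (1 : ℝ) ≤ P := by exact_mod_cast hP
  have hq : (1 : ℝ) ≤ Q := by exact_mod_cast hQ
  have hp0 : (0 : ℝ) < P := by linarith
  have hPQ : 1 ≤ P ^ 6 * Q := Nat.mul_pos (Nat.pow_pos hP) hQ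
  obtain ⟨n, hnk⟩ : ∃ n : ℕ, n + 2 = 14400 * P ^ 6 * Q := by
    refine ⟨14400 * P ^ 6 * Q - 2, ?_⟩
    have : 14400 * P ^ 6 * Q = 14400 * (P ^ 6 * Q) := by ring
    omega
  obtain ⟨ρ, hρ⟩ : ∃ ρ : ℕ, ρ = P + (n + 4) * R := ⟨_, rfl⟩
  have hρle : 2 * ρ + 1 ≤ 28807 * P ^ 7 * Q := by
    have h1 : (n + 4) * R ≤ (14400 * P ^ 6 * Q + 2) * P := by
      have h2 : n + 4 = 14400 * P ^ 6 * Q + 2 := by omega
      rw [h2]
      exact Nat.mul_le_mul_left _ hRP
    have h3 : P ≤ P ^ 7 * Q := by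
      calc P = P * 1 := by ring
        _ ≤ P * (P ^ 6 * Q) := Nat.mul_le_mul_left _ hPQ
        _ = P ^ 7 * Q := by ring
    have h4 : (14400 * P ^ 6 * Q + 2) * P = 14400 * (P ^ 7 * Q) + 2 * P := by ring
    have h5 : 28807 * P ^ 7 * Q = 28807 * (P ^ 7 * Q) := by ring
    have h6 : 1 ≤ P ^ 7 * Q := Nat.mul_pos (Nat.pow_pos hP) hQ
    rw [h4] at h1
    rw [h5, hρ]
    omega
  -- the number of steps
  have hNc : N ≤ Q * L ^ 2 := by
    have h1 : (range N).card = ∑ u : Site L, ((range N).filter fun k => c k = u).card :=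
      Finset.card_eq_sum_card_fiberwise fun k _ => by simp
    rw [card_range] at h1
    rw [h1]
    calc ∑ u : Site L, ((range N).filter fun k => c k = u).card ≤ ∑ _u : Site L, Q :=
          Finset.sum_le_sum fun u _ => hr u
      _ = Q * L ^ 2 := by
          rw [Finset.sum_const, card_univ, card_site, smul_eq_mul]
          ring
  have hNr : (N : ℝ) ≤ Q * (L : ℝ) ^ 2 := by exact_mod_cast hNc
  obtain ⟨δ, hδ⟩ : ∃ δ : ℝ, δ = (1 / (3 * P * (1 / (P : ℝ)))) ^ (12 * Q) +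
      L ^ 2 * ((2 * P * ((25 * P ^ 4 : ℕ) : ℝ) * ((12 * Q : ℕ) * (3 * P))) ^ (n + 2) /
        (n + 2).factorial) := ⟨_, rfl⟩
  have hX : 2 * P * ((25 * P ^ 4 : ℕ) : ℝ) * ((12 * Q : ℕ) * (3 * P)) = 1800 * (P : ℝ) ^ 6 * Q := by
    push_cast
    ring
  have herr : N * Real.sqrt (2 * δ / Real.exp (-Q)) ≤ Real.exp (-Q) / 2 := by
    refine err_bound Q N L δ hq (Nat.cast_nonneg _) (Nat.cast_nonneg _) hLQ hNr _ _ hδ ?_ ?_ ?_
    · have h1 : (1 / (3 * P * (1 / (P : ℝ)))) = 1 / 3 := by field_simp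
      rw [h1]
      refine (third_pow _).trans (le_of_eq ?_)
      push_cast
      ring_nf
    · rw [hX]
      refine (pow_fact _ (by positivity) (n + 2) ?_).trans ?_
      · rw [hnk]
        push_cast
        nlinarith [show (0 : ℝ) ≤ (P : ℝ) ^ 6 * Q by positivity]
      · apply Real.exp_le_exp.2
        rw [hnk]
        push_cast
        have h1 : (1 : ℝ) ≤ (P : ℝ) ^ 6 := one_le_pow₀ hp
        nlinarith
    · positivity
  obtain ⟨D, ψ, h1, h2, h3, h4⟩ := grow (N := N) hR P (1 / P) (by positivity) g E Φ c O z P hherm hJ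
    hn hfar hO hO1 hl (Real.exp (-Q)) (Real.exp_pos _) hz Q hr (3 * P) (by positivity) (12 * Q) n
    (25 * P ^ 4) (by
      have h5 : 2 * (P + R) + 1 ≤ 5 * P := by omega
      calc (2 * (P + R) + 1) ^ 2 ≤ (5 * P) ^ 2 := Nat.pow_le_pow_left h5 2
        _ = 25 * P ^ 2 := by ring
        _ ≤ 25 * P ^ 4 := Nat.mul_le_mul_left _ (Nat.pow_le_pow_right hP (by norm_num)))
    (by
      calc R ^ 4 ≤ P ^ 4 := Nat.pow_le_pow_left hRP 4
        _ ≤ 25 * P ^ 4 := Nat.le_mul_of_pos_left _ (by norm_num)) δ hδ ρ hρ (hρle.trans hbig) hφ hφ1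
    (by
      have := Real.exp_pos (-(Q : ℝ))
      linarith)
  refine ⟨D, ψ, ?_, h2, h3, ?_⟩
  · -- the bond dimension
    obtain ⟨S, hS⟩ : ∃ S : ℕ, S = (2 * ρ + 1) ^ 2 := ⟨_, rfl⟩
    rw [← hS] at h1
    have hSle : (S : ℝ) ≤ 830000000 * P ^ 14 * Q ^ 2 := by
      have h5 : ((2 * ρ + 1 : ℕ) : ℝ) ≤ 28807 * P ^ 7 * Q := by exact_mod_cast hρle
      rw [hS]
      push_cast at h5 ⊢
      calc (2 * (ρ : ℝ) + 1) ^ 2 ≤ (28807 * (P : ℝ) ^ 7 * Q) ^ 2 :=
            pow_le_pow_left₀ (by positivity) h5 2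
        _ = 829843249 * ((P : ℝ) ^ 14 * Q ^ 2) := by ring
        _ ≤ 830000000 * ((P : ℝ) ^ 14 * Q ^ 2) :=
            mul_le_mul_of_nonneg_right (by norm_num) (by positivity)
        _ = _ := by ring
    have hb : ((N * d ^ (2 * S) + 1 : ℕ) : ℝ) ≤ Real.exp (3 * Q + 2 * S * P + 1) := by
      have h5 : (N : ℝ) ≤ Real.exp (3 * Q) := by
        have hL2 : (L : ℝ) ^ 2 ≤ Real.exp (2 * Q) := by
          calc (L : ℝ) ^ 2 ≤ Real.exp Q ^ 2 := pow_le_pow_left₀ (Nat.cast_nonneg _) hLQ 2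
            _ = Real.exp (2 * Q) := by rw [← Real.exp_nat_mul]; norm_num
        have hqe : (Q : ℝ) ≤ Real.exp Q := by
          have := Real.add_one_le_exp (Q : ℝ)
          linarith
        calc (N : ℝ) ≤ Q * (L : ℝ) ^ 2 := hNr
          _ ≤ Real.exp Q * Real.exp (2 * Q) :=
              mul_le_mul hqe hL2 (by positivity) (Real.exp_pos _).le
          _ = Real.exp (3 * Q) := by rw [← Real.exp_add]; congr 1; ring
      have h6 : ((d : ℝ)) ^ (2 * S) ≤ Real.exp (2 * S * P) := by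
        calc ((d : ℝ)) ^ (2 * S) ≤ Real.exp P ^ (2 * S) :=
              pow_le_pow_left₀ (Nat.cast_nonneg _) hd _
          _ = Real.exp (2 * S * P) := by
              rw [← Real.exp_nat_mul]
              push_cast
              ring_nf
      have h7 : 1 ≤ Real.exp (3 * Q + 2 * S * P : ℝ) := Real.one_le_exp (by positivity)
      have h8 := Real.exp_one_gt_d9
      push_cast
      calc (N : ℝ) * (d : ℝ) ^ (2 * S) + 1 ≤ Real.exp (3 * Q) * Real.exp (2 * S * P) + 1 := by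
            gcongr
        _ = Real.exp (3 * Q + 2 * S * P) + 1 := by rw [Real.exp_add]
        _ ≤ Real.exp (3 * Q + 2 * S * P) * Real.exp 1 := by nlinarith
        _ = _ := (Real.exp_add _ _).symm
    have h5 : (D : ℝ) ≤ D0 * ((N * d ^ (2 * S) + 1 : ℕ) : ℝ) ^ (Q * S) := by exact_mod_cast h1
    refine h5.trans (mul_le_mul_of_nonneg_left ?_ (Nat.cast_nonneg _))
    calc ((N * d ^ (2 * S) + 1 : ℕ) : ℝ) ^ (Q * S)
        ≤ Real.exp (3 * Q + 2 * S * P + 1) ^ (Q * S) := pow_le_pow_left₀ (Nat.cast_nonneg _) hb _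
      _ = Real.exp ((Q * S) * (3 * Q + 2 * S * P + 1)) := by
          rw [← Real.exp_nat_mul]
          push_cast
          ring_nf
      _ ≤ Real.exp (2 * 10 ^ 18 * P ^ 29 * Q ^ 5) := by
          apply Real.exp_le_exp.2
          have hS0 : (0 : ℝ) ≤ S := Nat.cast_nonneg _
          have k1 : (3 * Q + 2 * S * P + 1 : ℝ) ≤ 1660000004 * P ^ 15 * Q ^ 2 := by
            have k2 : (2 * S * P : ℝ) ≤ 2 * (830000000 * P ^ 14 * Q ^ 2) * P := by gcongr
            have k3 : (1 : ℝ) ≤ (P : ℝ) ^ 15 := one_le_pow₀ hp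
            have k4 : (Q : ℝ) ≤ Q ^ 2 := by nlinarith
            have k5 : (Q : ℝ) ^ 2 ≤ P ^ 15 * Q ^ 2 := le_mul_of_one_le_left (by positivity) k3
            have k6 : 2 * (830000000 * (P : ℝ) ^ 14 * Q ^ 2) * P = 1660000000 * (P ^ 15 * Q ^ 2) := by
              ring
            rw [k6] at k2
            have k7 : 1660000004 * (P : ℝ) ^ 15 * Q ^ 2 = 1660000004 * (P ^ 15 * Q ^ 2) := by ring
            rw [k7]
            nlinarith
          calc (Q * S : ℝ) * (3 * Q + 2 * S * P + 1)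
              ≤ (Q * (830000000 * P ^ 14 * Q ^ 2)) * (1660000004 * P ^ 15 * Q ^ 2) := by gcongr
            _ = 1377800003320000000 * (P ^ 29 * Q ^ 5) := by ring
            _ ≤ 2 * 10 ^ 18 * (P ^ 29 * Q ^ 5) :=
                mul_le_mul_of_nonneg_right (by norm_num) (by positivity)
            _ = _ := by ring
  · linarith

end Pool.Agent.T6.H19.GR
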